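import Mathlib
import Pool.Agent.Helper22.OracleDefs

set_option autoImplicit false

/-!
# Joins of oracles, tally oracles, the polynomial hierarchy relative to an oracle
-/

namespace Pool.Agent.Helper20.Cons

open N68a2faeb N793a5b8e N487b59b3 Pool.Agent.Helper22 Topology

/-- The join of two oracles: `false :: u` is in it if `u` is in `A`, and `true :: u` is in it if
`u` is in `T`. -/
def join (A T : Oracle) : Oracle
  | [] => false
  | false :: u => A u
  | true :: u => T u

/-- A tally oracle: all its words consist of `true`s. -/
def Tally (T : Oracle) : Prop := ∀ u, T u = true → ∀ b ∈ u, b = true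

/-- `k` alternating quantifiers over words of length at most `m` (the first one is `∃` if `b`, and
`∀` otherwise), in front of the matrix given by the oracle procedure `M` and the oracle `X`; the
words quantified so far are collected in `ws`, latest first. -/
def QAcc (M : OracleProc (List Bool × List (List Bool)) Bool) (m : ℕ) (X : Oracle)
    (x : List Bool) : ℕ → Bool → List (List Bool) → Prop
  | 0, _, ws => M.run X (x, ws) = true
  | k + 1, true, ws => ∃ w : List Bool, w.length ≤ m ∧ QAcc M m X x k false (w :: ws)
  | k + 1, false, ws => ∀ w : List Bool, w.length ≤ m → QAcc M m X x k true (w :: ws)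

/-- The `k`-th level `Σ_k` of the polynomial hierarchy relative to the oracle `X`; level `0` is
polynomial time. -/
def SigmaP (X : Oracle) (k : ℕ) : DecisionComplexityClass :=
  {L | ∃ (p : Polynomial ℕ) (M : OracleProc (List Bool × List (List Bool)) Bool),
    ∀ x, L x = true ↔ QAcc M (p.eval x.length) X x k true []}

/-- Polynomial time relative to the oracle `X`. -/
def Po (X : Oracle) : DecisionComplexityClass :=
  {L | ∃ M : OracleProc (List Bool) Bool, ∀ x, L x = M.run X x}




/-- An operator is locally constant if every value `Ψ X y` depends only on finitely many answers of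
the oracle `X`. -/
def LocConst {γ : Type} (Ψ : Oracle → List Bool → γ) : Prop :=
  ∀ (X : Oracle) (y : List Bool), ∀ᶠ Y in 𝓝 X, Ψ Y y = Ψ X y

end Pool.Agent.Helper20.Cons
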