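import Mathlib
import Pool.Agent.Helper22.OracleTally
import Pool.Agent.Helper20.Cons.Defs

set_option autoImplicit false

/-!
# Coded oracle procedures, run with bounds given by a word
-/

namespace Pool.Agent.Helper20.Cons

open Turing Function N487b59b3 N68a2faeb N793a5b8e Pool.Agent.Helper22

/-- answers to the first queries of the procedure with code `j = cd jc (cd jq jo)` on `y`, run
under the bound `|r|` (clock of each computation, length of the queries) -/
def cAns (j r y : List Bool) (X : Oracle) : ℕ → List Bool
  | 0 => []
  | k + 1 => X ((fjt (cf (cs j)) (cd y (cAns j r y X k)) r).take r.length) :: cAns j r y X k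

/-- the queries are counted by this word -/
def cNum (j r y : List Bool) : List Bool := (fjt (cf j) y r).take r.length

/-- output from the input and the answers -/
def cOut (j r y a : List Bool) : Bool :=
  decide ((pw (cd y a) (cs (cs (cs j))) r).length ≤ r.length) &&
    (fjt (cs (cs j)) (cd y a) r).headD false

/-- run of the coded procedure -/
def cRun (j r y : List Bool) (X : Oracle) : Bool :=
  cOut j r y (cAns j r y X (cNum j r y).length)

/-- acceptance by the coded verifier -/
def cAcc (j r : List Bool) (X : Oracle) (x : List Bool) : Prop :=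
  ∃ w : List Bool, w.length ≤ r.length ∧ cRun j r (cd x w) X = true

theorem cAns_congr {X Y : Oracle} {r : List Bool} (h : ∀ u : List Bool, u.length ≤ r.length →
    X u = Y u) (j y : List Bool) (k : ℕ) : cAns j r y X k = cAns j r y Y k := by
  induction k with
  | zero => rfl
  | succ k ih =>
    rw [cAns, cAns, ih, h _ (List.length_take_le _ _)]

theorem cAcc_congr {X Y : Oracle} {r : List Bool} (h : ∀ u : List Bool, u.length ≤ r.length →
    X u = Y u) (j x : List Bool) : cAcc j r X x ↔ cAcc j r Y x := by
  simp only [cAcc, cRun, cAns_congr h]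

theorem fjt_len (j y : List Bool) {t t' : List Bool} (h : t.length = t'.length) :
    fjt j y t = fjt j y t' := by
  rw [fjt, fjt, pw_eq, pw_eq, h]

/-- every verifier has a code -/
theorem exists_code (M : OracleProc (List Bool × List Bool) Bool) (p : Polynomial ℕ) :
    ∃ (j : List Bool) (e₀ : ℕ), ∀ e, e₀ ≤ e → ∀ (X : Oracle) (x : List Bool),
      cAcc j (un (x.length ^ e + e)) X x ↔ Accepts M p X x := by
  have fc := (isPolyTime_iff _).1 M.clock_poly
  have fq := (isPolyTime_iff _).1 M.query_poly
  have fo := (isPolyTime_iff _).1 M.out_poly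
  have gc : FP fun y : List Bool => M.clock (cf y, cs y) := fc.comp (by fun_prop)
  have gq : FP fun v : List Bool => M.query ((cf (cf v), cs (cf v)), cs v) :=
    fq.comp (by fun_prop)
  have go : FP fun v : List Bool => [M.out ((cf (cf v), cs (cf v)), cs v) &&
      wL (fun _ => true) p (cf (cf v), cs (cf v))] := by
    have h1 : FP fun v : List Bool => M.out ((cf (cf v), cs (cf v)), cs v) :=
      fo.comp (by fun_prop)
    have h2 : FP fun v : List Bool => wL (fun _ => true) p (cf (cf v), cs (cf v)) :=
      (wL_FP (FP.const true) p).comp (by fun_prop)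
    exact (h1.and h2).cons (FP.const [])
  obtain ⟨jc, hjc⟩ := exists_fj gc
  obtain ⟨jq, hjq⟩ := exists_fj gq
  obtain ⟨jo, hjo⟩ := exists_fj go
  obtain ⟨Bc, hBc, hBcm, hBcle⟩ := fc.bound
  obtain ⟨Bq, hBq, hBqm, hBqle⟩ := fq.bound
  -- bounds
  set s : ℕ → ℕ := fun n => 6 * n + 1 + 3 * p.eval n with hs
  have hsPB : PB s := by
    have h1 : PB fun n => p.eval n := PB.poly p
    rw [hs]; fun_prop
  set c : ℕ → ℕ := fun n => Bc (s n) with hc
  have hcPB : PB c := by rw [hc]; exact hBc.comp hsPB
  set l : ℕ → ℕ := fun n => 2 * (2 * n + 1 + p.eval n) + 1 + c n with hl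
  have hlPB : PB l := by
    have h1 : PB fun n => p.eval n := PB.poly p
    rw [hl]; fun_prop
  set q : ℕ → ℕ := fun n => Bq (2 * s n + 1 + 3 * c n) with hq
  have hqPB : PB q := by rw [hq]; exact hBq.comp (by fun_prop)
  set b : ℕ → ℕ := fun n => p.eval n + (l n + 1) ^ (cs jc).length + c n +
    (l n + 1) ^ (cs jq).length + q n + (l n + 1) ^ (cs jo).length with hb
  have hbPB : PB b := by
    have h1 : PB fun n => p.eval n := PB.poly p
    have h2 : PB fun n => l n + 1 := by fun_prop
    have h3 := h2.pow (cs jc).length
    have h4 := h2.pow (cs jq).length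
    have h5 := h2.pow (cs jo).length
    rw [hb]; fun_prop
  obtain ⟨P, hP⟩ := exists_poly hbPB
  obtain ⟨e₀, he₀⟩ := poly_le_pow P
  refine ⟨cd jc (cd jq jo), e₀, fun e he X x => ?_⟩
  set n := x.length with hn
  have hbound : b n ≤ n ^ e + e := ((hP n).trans (he₀ n)).trans (pow_add_le_pow_add n he)
  set r := un (n ^ e + e) with hr
  have hrl : r.length = n ^ e + e := by rw [hr, un_length]
  rw [hb] at hbound
  simp only at hbound
  have hlen : ∀ a : List Bool, a.length ≤ l n → ∀ k : ℕ, a.length ^ k ≤ (l n + 1) ^ k :=
    fun a ha k => Nat.pow_le_pow_left (by omega) k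
  -- the run on short witnesses
  have hrun : ∀ w : List Bool, w.length ≤ p.eval n →
      cRun (cd jc (cd jq jo)) r (cd x w) X = M.run X (x, w) := by
    intro w hw
    have hsz : sz (x, w) ≤ s n := by
      simp only [sz_pair, sz_bits, hs]; omega
    have hck : (M.clock (x, w)).length ≤ c n := by
      have h1 := (hBcle (x, w)).trans (hBcm hsz)
      have h2 := length_le_sz (M.clock (x, w))
      simp only [hc]; omega
    have hnum : cNum (cd jc (cd jq jo)) r (cd x w) = M.clock (x, w) := by
      rw [cNum, cf_cd, fjt_eq, hjc, cf_cd, cs_cd]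
      · refine List.take_of_length_le ?_
        omega
      · have := hlen (cd x w) (by rw [cd_length]; simp only [hl]; omega) (cs jc).length
        omega
    have hans : ∀ k, k ≤ (M.clock (x, w)).length →
        cAns (cd jc (cd jq jo)) r (cd x w) X k = M.answers X (x, w) k := by
      intro k
      induction k with
      | zero => intro _; rfl
      | succ k ih =>
        intro hk
        have ih' := ih (by omega)
        have hal := OracleProc.answers_length M X (x, w) k
        rw [cAns, OracleProc.answers, ih', cs_cd, cf_cd, fjt_eq, hjq, cf_cd, cs_cd, cf_cd, cs_cd]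
        · rw [List.take_of_length_le]
          have h1 := hBqle ((x, w), M.answers X (x, w) k)
          have h2 : sz ((x, w), M.answers X (x, w) k) ≤ 2 * s n + 1 + 3 * c n := by
            simp only [sz_pair, sz_bits] at hsz ⊢
            omega
          have h3 := h1.trans (hBqm h2)
          have h4 := length_le_sz (M.query ((x, w), M.answers X (x, w) k))
          have h5 : q n = Bq (2 * s n + 1 + 3 * c n) := rfl
          omega
        · have := hlen (cd (cd x w) (M.answers X (x, w) k))
            (by rw [cd_length, cd_length, hal]; simp only [hl]; omega) (cs jq).length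
          omega
    rw [cRun, hnum, hans _ le_rfl, OracleProc.run, cOut]
    have hal := OracleProc.answers_length M X (x, w) (M.clock (x, w)).length
    have hpow := hlen (cd (cd x w) (M.answers X (x, w) (M.clock (x, w)).length))
            (by rw [cd_length, cd_length, hal]; simp only [hl]; omega) (cs jo).length
    have h6 : (cd (cd x w) (M.answers X (x, w) (M.clock (x, w)).length)).length ^
        (cs jo).length ≤ r.length := by omega
    rw [cs_cd, cs_cd, fjt_eq _ _ _ h6, hjo, cf_cd, cs_cd, cf_cd, cs_cd, pw_eq, un_length,
      List.headD_cons]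
    have h7 : decide (min ((cd (cd x w) (M.answers X (x, w) (M.clock (x, w)).length)).length ^
        (cs jo).length) (r.length + 1) ≤ r.length) = true := by
      rw [decide_eq_true_eq]; omega
    have h8 : wL (fun _ => true) p (x, w) = true := by rw [wL_iff]; exact ⟨hw, rfl⟩
    rw [h7, h8, Bool.true_and, Bool.and_true]
  constructor
  · rintro ⟨w, hw, hw'⟩
    by_cases hwp : w.length ≤ p.eval n
    · exact ⟨w, hwp, by rw [← hrun w hwp]; exact hw'⟩
    · exfalso
      rw [cRun, cOut, cs_cd, cs_cd, Bool.and_eq_true, decide_eq_true_eq, pw_eq, un_length] at hw'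
      obtain ⟨h1, h2⟩ := hw'
      rw [fjt_eq _ _ _ (by omega), hjo, cf_cd, cf_cd, cs_cd, cs_cd, List.headD_cons,
        Bool.and_eq_true, wL_iff] at h2
      exact hwp h2.2.1
  · rintro ⟨w, hw, hw'⟩
    have hw2 : w.length ≤ p.eval n := hw
    refine ⟨w, ?_, by rw [hrun w hw]; exact hw'⟩
    omega

end Pool.Agent.Helper20.Cons
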