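import Mathlib
import Pool.Agent.Helper20.Cons.Code
import Pool.Agent.Helper49.Cons.Table

set_option autoImplicit false

/-!
# Coded oracle procedures between arbitrary types, and coded verdicts
-/

namespace Pool.Agent.Helper20.Cons

open Turing Function N487b59b3 N68a2faeb N793a5b8e Pool.Agent.Helper22 Pool.Agent.Helper49.Cons

/-- output word from the input and the answers -/
def cOutW (j r y a : List Bool) : List Bool := (fjt (cs (cs j)) (cd y a) r).take r.length

/-- run of the coded procedure, with a word as output -/
def cRunW (j r y : List Bool) (X : Oracle) : List Bool :=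
  cOutW j r y (cAns j r y X (cNum j r y).length)

theorem cAns_length (j r y : List Bool) (X : Oracle) (k : ℕ) : (cAns j r y X k).length = k := by
  induction k with
  | zero => rfl
  | succ k ih => rw [cAns, List.length_cons, ih]

theorem cRunW_congr {X Y : Oracle} {r : List Bool} (h : ∀ u : List Bool, u.length ≤ r.length →
    X u = Y u) (j y : List Bool) : cRunW j r y X = cRunW j r y Y := by
  rw [cRunW, cRunW, cAns_congr h]

theorem cRun_congr {X Y : Oracle} {r : List Bool} (h : ∀ u : List Bool, u.length ≤ r.length →
    X u = Y u) (j y : List Bool) : cRun j r y X = cRun j r y Y := by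
  rw [cRun, cRun, cAns_congr h]

theorem FP.lc' : FP lc := by
  have h1 : ∀ l : List (List Bool), lc l = l.reverse.foldl (fun a w => cd w a) [] := by
    intro l
    rw [List.foldl_reverse]
    induction l with
    | nil => rfl
    | cons a l ih => rw [lc, ih]; rfl
  have h2 : FP fun p : List (List Bool) × List Bool => p.1.foldl (fun a w => cd w a) p.2 := by
    refine FP.foldl (g := fun (a w : List Bool) => cd w a) (by fun_prop)
      (B := fun n => 3 * n) (by fun_prop) fun l a => ?_
    have key : ∀ (l : List (List Bool)) (a : List Bool),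
        (l.foldl (fun a w => cd w a) a).length ≤ sz l + a.length := by
      intro l
      induction l with
      | nil => intro a; simp
      | cons b l ih =>
        intro a
        rw [List.foldl_cons]
        refine (ih _).trans ?_
        rw [cd_length, sz_cons, sz_bits]
        omega
    have h3 := key l a
    rw [sz_bits, sz_bits]
    omega
  have h3 := h2.comp ((FP.reverse FP.id).pair (FP.const ([] : List Bool)))
  have h4 : lc = fun l : List (List Bool) => l.reverse.foldl (fun a w => cd w a) [] :=
    funext h1
  rw [h4]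
  exact h3

theorem lc_length_tl (ws : List (List Bool)) : (lc ws).length ≤ 2 * tl ws := by
  induction ws with
  | nil => simp [lc]
  | cons w ws ih =>
    have h1 : tl (w :: ws) = w.length + 1 + tl ws := by simp [tl]
    rw [lc, cd_length, h1]
    omega

theorem lc_injective : Function.Injective lc := fun a b h => by
  rw [← ld_lc a, ← ld_lc b, h]

section

variable {α β : Type} [N487b59b3 α] [N487b59b3 β]

/-- every procedure has a code -/
theorem exists_codeG (M : OracleProc α β) (dec : List Bool → α) (hdec : FP dec)
    (wo : β → List Bool) (hwo : FP wo) :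
    ∃ (j : List Bool) (P : ℕ → ℕ), PB P ∧ Monotone P ∧ ∀ (X : Oracle) (y r : List Bool),
      P y.length ≤ r.length → cRunW j r y X = wo (M.run X (dec y)) ∧
        cRun j r y X = (wo (M.run X (dec y))).headD false := by
  have fc := (isPolyTime_iff _).1 M.clock_poly
  have fq := (isPolyTime_iff _).1 M.query_poly
  have fo := (isPolyTime_iff _).1 M.out_poly
  have gc : FP fun y : List Bool => M.clock (dec y) := fc.comp hdec
  have gq : FP fun v : List Bool => M.query (dec (cf v), cs v) :=
    fq.comp ((hdec.comp (by fun_prop)).pair (by fun_prop))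
  have go : FP fun v : List Bool => wo (M.out (dec (cf v), cs v)) :=
    hwo.comp (fo.comp ((hdec.comp (by fun_prop)).pair (by fun_prop)))
  obtain ⟨jc, hjc⟩ := exists_fj gc
  obtain ⟨jq, hjq⟩ := exists_fj gq
  obtain ⟨jo, hjo⟩ := exists_fj go
  obtain ⟨Bc, hBc, hBcm, hBcle⟩ := gc.bound
  obtain ⟨Bq, hBq, hBqm, hBqle⟩ := gq.bound
  obtain ⟨Bo, hBo, hBom, hBole⟩ := go.bound
  set c : ℕ → ℕ := fun n => Bc (3 * n) with hc
  have hcPB : PB c := hBc.comp (by fun_prop)
  set l : ℕ → ℕ := fun n => 2 * n + 1 + c n with hl
  have hlPB : PB l := by rw [hl]; fun_prop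
  have hlm : Monotone l := fun m n h => by
    have := hBcm (show 3 * m ≤ 3 * n by omega)
    simp only [hl, hc]; omega
  set P : ℕ → ℕ := fun n => c n + n ^ (cs jc).length + Bq (3 * l n) + (l n) ^ (cs jq).length +
    Bo (3 * l n) + (l n) ^ (cs jo).length with hP
  have hPB : PB P := by
    have h1 : PB fun n : ℕ => n := by fun_prop
    have h3 := h1.pow (cs jc).length
    have h4 := hlPB.pow (cs jq).length
    have h5 := hlPB.pow (cs jo).length
    have h6 : PB fun n => Bq (3 * l n) := hBq.comp (by fun_prop)
    have h7 : PB fun n => Bo (3 * l n) := hBo.comp (by fun_prop)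
    rw [hP]; fun_prop
  have hPm : Monotone P := fun m n h => by
    have h0 := hBcm (show 3 * m ≤ 3 * n by omega)
    have h1 := hlm h
    have h2 := hBqm (show 3 * l m ≤ 3 * l n by omega)
    have h3 := hBom (show 3 * l m ≤ 3 * l n by omega)
    have h4 : m ^ (cs jc).length ≤ n ^ (cs jc).length := Nat.pow_le_pow_left h _
    have h5 : (l m) ^ (cs jq).length ≤ (l n) ^ (cs jq).length := Nat.pow_le_pow_left h1 _
    have h6 : (l m) ^ (cs jo).length ≤ (l n) ^ (cs jo).length := Nat.pow_le_pow_left h1 _
    simp only [hP, hc] at *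
    omega
  refine ⟨cd jc (cd jq jo), P, hPB, hPm, fun X y r hr => ?_⟩
  simp only [hP] at hr
  have hck : (M.clock (dec y)).length ≤ c y.length := by
    have h1 := hBcle y
    rw [sz_bits, sz_bits] at h1
    simp only [hc]; omega
  have hnum : cNum (cd jc (cd jq jo)) r y = M.clock (dec y) := by
    rw [cNum, cf_cd, fjt_eq _ _ _ (by omega), hjc]
    exact List.take_of_length_le (by omega)
  have hlen : ∀ k, k ≤ (M.clock (dec y)).length →
      (cd y (M.answers X (dec y) k)).length ≤ l y.length := by
    intro k hk
    rw [cd_length, OracleProc.answers_length]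
    simp only [hl]; omega
  have hans : ∀ k, k ≤ (M.clock (dec y)).length →
      cAns (cd jc (cd jq jo)) r y X k = M.answers X (dec y) k := by
    intro k
    induction k with
    | zero => intro _; rfl
    | succ k ih =>
      intro hk
      have hk' : k ≤ (M.clock (dec y)).length := by omega
      have h1 := hlen k hk'
      have h2 : (cd y (M.answers X (dec y) k)).length ^ (cs jq).length ≤
          (l y.length) ^ (cs jq).length := Nat.pow_le_pow_left h1 _
      rw [cAns, OracleProc.answers, ih hk', cs_cd, cf_cd, fjt_eq _ _ _ (by omega), hjq, cf_cd,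
        cs_cd, List.take_of_length_le]
      have h3 := hBqle (cd y (M.answers X (dec y) k))
      rw [sz_bits, sz_bits, cf_cd, cs_cd] at h3
      have h4 := hBqm (show 3 * (cd y (M.answers X (dec y) k)).length ≤ 3 * l y.length by omega)
      omega
  have h1 := hlen _ le_rfl
  have h2 : (cd y (M.answers X (dec y) (M.clock (dec y)).length)).length ^ (cs jo).length ≤
      (l y.length) ^ (cs jo).length := Nat.pow_le_pow_left h1 _
  have hout : fjt (cs (cs (cd jc (cd jq jo))))
      (cd y (M.answers X (dec y) (M.clock (dec y)).length)) r = wo (M.run X (dec y)) := by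
    rw [cs_cd, cs_cd, fjt_eq _ _ _ (by omega), hjo, cf_cd, cs_cd]
    rfl
  constructor
  · rw [cRunW, hnum, hans _ le_rfl, cOutW, hout]
    refine List.take_of_length_le ?_
    have h3 := hBole (cd y (M.answers X (dec y) (M.clock (dec y)).length))
    rw [sz_bits, sz_bits, cf_cd, cs_cd] at h3
    have h4 := hBom (show 3 * (cd y (M.answers X (dec y) (M.clock (dec y)).length)).length ≤
      3 * l y.length by omega)
    have h5 : (wo (M.run X (dec y))).length = (wo (M.out (dec y, M.answers X (dec y)
      (M.clock (dec y)).length))).length := rfl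
    omega
  · rw [cRun, hnum, hans _ le_rfl, cOut, hout]
    have h7 : decide ((pw (cd y (M.answers X (dec y) (M.clock (dec y)).length))
        (cs (cs (cs (cd jc (cd jq jo))))) r).length ≤ r.length) = true := by
      rw [decide_eq_true_eq, cs_cd, cs_cd, pw_eq, un_length]
      omega
    rw [h7, Bool.true_and]

end

/-! ## Coded verdicts -/

/-- the coded verdict -/
def cVer (Φ : Acc) (jg jM r : List Bool) (X : Oracle) (x : List Bool) : Option Bool :=
  Φ.acc (cRunW jg r x X).length fun ws => cRun jM r (cd x (lc ws)) X

theorem cVer_congr {X Y : Oracle} {r : List Bool} (h : ∀ u : List Bool, u.length ≤ r.length →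
    X u = Y u) (Φ : Acc) (jg jM x : List Bool) : cVer Φ jg jM r X x = cVer Φ jg jM r Y x := by
  rw [cVer, cVer, cRunW_congr h]
  simp only [cRun_congr h]

/-- every pair of procedures has a code -/
theorem exists_code_verdict (Φ : Acc) (g : OracleProc (List Bool) (List Bool))
    (M : OracleProc (List Bool × List (List Bool)) Bool) :
    ∃ (jg jM : List Bool) (e₀ : ℕ), ∀ e, e₀ ≤ e → ∀ (X : Oracle) (x : List Bool),
      cVer Φ jg jM (un (x.length ^ e + e)) X x = verdict Φ g M X x := by
  obtain ⟨jg, Pg, hPg, hPgm, hg⟩ := exists_codeG g (fun y => y) FP.id (fun w => w) FP.id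
  obtain ⟨jM, PM, hPM, hPMm, hM⟩ := exists_codeG M (fun y => (cf y, ld (cs y))) (by fun_prop)
    (fun b => [b]) (FP.id.cons (FP.const []))
  obtain ⟨Bo, hBo, hBom, hBole⟩ := exists_out_bound g
  have hs : PB fun n => Pg n + PM (2 * n + 1 + 2 * Φ.size.eval (Bo (3 * n))) := by
    have h1 : PB fun n => Φ.size.eval (Bo (3 * n)) :=
      (PB.poly Φ.size).comp (hBo.comp (g := fun n => 3 * n) (by fun_prop))
    have h2 : PB fun n => PM (2 * n + 1 + 2 * Φ.size.eval (Bo (3 * n))) :=
      hPM.comp (by fun_prop)
    exact hPg.add h2
  obtain ⟨Q, hQ⟩ := exists_poly hs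
  obtain ⟨e₀, he₀⟩ := poly_le_pow Q
  refine ⟨jg, jM, e₀, fun e he X x => ?_⟩
  have hb := ((hQ x.length).trans (he₀ _)).trans (pow_add_le_pow_add x.length he)
  have h1 : cRunW jg (un (x.length ^ e + e)) x X = g.run X x :=
    (hg X x _ (by rw [un_length]; omega)).1
  rw [cVer, verdict, h1]
  refine Φ.loc _ _ _ fun ws hws => ?_
  have h2 := hBole X x
  rw [sz_bits, sz_bits] at h2
  have h3 := poly_mono Φ.size (show (g.run X x).length ≤ Bo (3 * x.length) by omega)
  have h4 := lc_length_tl ws
  simp only at h3
  have h5 : (cd x (lc ws)).length ≤ 2 * x.length + 1 + 2 * Φ.size.eval (Bo (3 * x.length)) := by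
    rw [cd_length]; omega
  have h6 := hPMm h5
  have h7 := (hM X (cd x (lc ws)) (un (x.length ^ e + e)) (by rw [un_length]; omega)).2
  rw [h7, cf_cd, cs_cd, ld_lc, List.headD_cons]

end Pool.Agent.Helper20.Cons
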