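import Mathlib
import Pool.Agent.Helper20.Cons.Code

set_option autoImplicit false

/-!
# Positions of the bits, valid codes
-/

namespace Pool.Agent.Helper20.Cons

open Turing Function N487b59b3 N68a2faeb N793a5b8e Pool.Agent.Helper22

/-- exponent of the code `c = cd j₁ (cd j₀ e)` -/
def ce (c : List Bool) : ℕ := (cs (cs c)).length

/-- the bound for the code number `i` and inputs of length `n` -/
def rho (i n : ℕ) : ℕ := n ^ ce (enum i) + ce (enum i)

/-- position of the bit of code number `i` and length `n` -/
def pos (i n : ℕ) : ℕ := (i + (rho i n + n)) ^ 2 + i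

/-- the two verifiers coded by `i` are complementary on the words of length `n` -/
def Good (X : Oracle) (i n : ℕ) : Prop := ∀ x : List Bool, x.length = n →
  (cAcc (cf (enum i)) (un (rho i n)) X x ↔ ¬ cAcc (cf (cs (enum i))) (un (rho i n)) X x)

theorem rho_mono (i : ℕ) : Monotone (rho i) := fun _ _ h => by
  unfold rho
  exact Nat.add_le_add_right (Nat.pow_le_pow_left h _) _

theorem rho_add_lt_pos (i n : ℕ) : rho i n + n ≤ pos i n := by
  unfold pos
  nlinarith [Nat.zero_le (i + (rho i n + n)), Nat.le_self_pow (n := 2) (by norm_num)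
    (i + (rho i n + n))]

theorem Good_congr {X Y : Oracle} {i n : ℕ} (h : ∀ u : List Bool, u.length ≤ rho i n →
    X u = Y u) : Good X i n ↔ Good Y i n := by
  have h' : ∀ u : List Bool, u.length ≤ (un (rho i n)).length → X u = Y u := by
    simpa using h
  simp only [Good, cAcc_congr h']

theorem pos_inj {i n i' n' : ℕ} (h : pos i n = pos i' n') : i = i' ∧ n = n' := by
  unfold pos at h
  have h1 : i ≤ i + (rho i n + n) := by omega
  have h1' : i' ≤ i' + (rho i' n' + n') := by omega
  have h2 : i + (rho i n + n) = i' + (rho i' n' + n') := by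
    rcases lt_trichotomy (i + (rho i n + n)) (i' + (rho i' n' + n')) with h3 | h3 | h3
    · nlinarith
    · exact h3
    · nlinarith
  have h3 : i = i' := by rw [h2] at h; omega
  refine ⟨h3, ?_⟩
  subst h3
  rcases lt_trichotomy n n' with h4 | h4 | h4
  · have := rho_mono i h4.le; omega
  · exact h4
  · have := rho_mono i h4.le; omega

end Pool.Agent.Helper20.Cons
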