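import Mathlib
import Pool.Agent.Helper20.Cons.Pos
import Pool.Agent.Helper22.Cons.Pattern

set_option autoImplicit false

/-!
# The recursion defining the tally oracle, and the choice of the starting times
-/

namespace Pool.Agent.Helper20.Cons

open Turing Function N487b59b3 N68a2faeb N793a5b8e Pool.Agent.Helper22 Filter Topology

theorem join_congr {A T T' : Oracle} {u : ℕ} (h : ∀ w : List Bool, w.length < u → T w = T' w)
    (w : List Bool) (hw : w.length ≤ u) : join A T w = join A T' w := by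
  cases w with
  | nil => rfl
  | cons b v =>
    cases b
    · rfl
    · exact h v (by rw [List.length_cons] at hw; omega)

theorem tally_congr {S S' : Set ℕ} {u : ℕ} (h : ∀ m, m < u → (m ∈ S ↔ m ∈ S')) (w : List Bool)
    (hw : w.length < u) : tally S w = tally S' w := by
  rw [Bool.eq_iff_iff, tally_iff S w, tally_iff S' w, h _ hw]

theorem tally_tally (S : Set ℕ) : Tally (tally S) := by
  intro u hu b hb
  rw [((tally_iff S u).1 hu).1, un] at hb
  exact List.eq_of_mem_replicate hb

section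

variable (A : Oracle) (l : ℕ → ℕ∞)

/-- the position `m` is to be put into the set, if `F` is the part of the set below `m` -/
def Cond (F : Set ℕ) (m : ℕ) : Prop := ∃ i n : ℕ, m = pos i n ∧ l i ≤ n ∧
  ∀ n' : ℕ, l i ≤ n' → n' ≤ n → Good (join A (tally F)) i n'

/-- the part of the set below a given number -/
def pre : ℕ → Set ℕ
  | 0 => ∅
  | m + 1 => pre m ∪ {x | x = m ∧ Cond A l (pre m) m}

/-- the set of the positions of the bits `1` -/
def SS : Set ℕ := {m | m ∈ pre A l (m + 1)}

variable {A l}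

theorem mem_pre {m k : ℕ} : m ∈ pre A l k ↔ m < k ∧ m ∈ SS A l := by
  induction k with
  | zero => simp [pre]
  | succ k ih =>
    constructor
    · intro h
      rcases h with h | ⟨rfl, h⟩
      · have := ih.1 h
        exact ⟨by omega, this.2⟩
      · exact ⟨by omega, Or.inr ⟨rfl, h⟩⟩
    · rintro ⟨h1, h2⟩
      rcases Nat.lt_succ_iff_lt_or_eq.1 h1 with h3 | rfl
      · exact Or.inl (ih.2 ⟨h3, h2⟩)
      · exact h2

theorem good_pre {i n n' : ℕ} (h : n' ≤ n) :
    Good (join A (tally (pre A l (pos i n)))) i n' ↔ Good (join A (tally (SS A l))) i n' := by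
  refine Good_congr fun u hu => join_congr (u := pos i n) ?_ u ?_
  · refine tally_congr fun m hm => ?_
    rw [mem_pre]
    exact ⟨fun h => h.2, fun h => ⟨hm, h⟩⟩
  · have h1 := rho_mono i h
    have h2 := rho_add_lt_pos i n
    omega

theorem mem_SS {m : ℕ} : m ∈ SS A l ↔ ∃ i n : ℕ, m = pos i n ∧ l i ≤ n ∧
    ∀ n' : ℕ, l i ≤ n' → n' ≤ n → Good (join A (tally (SS A l))) i n' := by
  have h1 : m ∈ SS A l ↔ Cond A l (pre A l m) m := by
    constructor
    · rintro (h | ⟨-, h⟩)
      · exact absurd (mem_pre.1 h).1 (lt_irrefl _)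
      · exact h
    · intro h
      exact Or.inr ⟨rfl, h⟩
  rw [h1]
  constructor
  · rintro ⟨i, n, rfl, h2, h3⟩
    exact ⟨i, n, rfl, h2, fun n' h4 h5 => (good_pre h5).1 (h3 n' h4 h5)⟩
  · rintro ⟨i, n, rfl, h2, h3⟩
    exact ⟨i, n, rfl, h2, fun n' h4 h5 => (good_pre h5).2 (h3 n' h4 h5)⟩

theorem pos_mem_SS {i n : ℕ} : pos i n ∈ SS A l ↔ l i ≤ n ∧
    ∀ n' : ℕ, l i ≤ n' → n' ≤ n → Good (join A (tally (SS A l))) i n' := by
  rw [mem_SS]
  constructor
  · rintro ⟨i', n', h, h'⟩
    obtain ⟨rfl, rfl⟩ := pos_inj h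
    exact h'
  · intro h
    exact ⟨i, n, rfl, h⟩

theorem pre_agree {l' : ℕ → ℕ∞} {u : ℕ} (h : ∀ i, l i = l' i ∨ ((u : ℕ∞) < l i ∧ (u : ℕ∞) < l' i))
    {m : ℕ} (hm : m ≤ u + 1) : pre A l m = pre A l' m := by
  induction m with
  | zero => rfl
  | succ m ih =>
    have h1 := ih (by omega)
    have key : ∀ {l l' : ℕ → ℕ∞}, (∀ i, l i = l' i ∨ ((u : ℕ∞) < l i ∧ (u : ℕ∞) < l' i)) →
        ∀ F, Cond A l F m → Cond A l' F m := by
      rintro l l' h F ⟨i, n, h2, h3, h4⟩
      rcases h i with h5 | ⟨h5, -⟩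
      · exact ⟨i, n, h2, h5 ▸ h3, h5 ▸ h4⟩
      · exfalso
        have h6 : (u : ℕ∞) < n := h5.trans_le h3
        have h7 : u < n := by exact_mod_cast h6
        have h8 := rho_add_lt_pos i n
        omega
    have h2 : Cond A l (pre A l' m) m ↔ Cond A l' (pre A l' m) m :=
      ⟨key h _, key (fun i => (h i).imp (fun e => e.symm) fun e => ⟨e.2, e.1⟩) _⟩
    rw [pre, pre, h1, h2]

theorem SS_agree {l' : ℕ → ℕ∞} {u : ℕ} (h : ∀ i, l i = l' i ∨ ((u : ℕ∞) < l i ∧ (u : ℕ∞) < l' i))
    {m : ℕ} (hm : m ≤ u) : m ∈ SS A l ↔ m ∈ SS A l' := by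
  rw [SS, SS, Set.mem_ofPred_eq, Set.mem_ofPred_eq, pre_agree h (by omega)]

/-- if only finitely many codes are started, the set is in P -/
theorem SS_FP {k : ℕ} (hl : ∀ i, k ≤ i → l i = ⊤) : FP (tally (SS A l)) := by
  classical
  have h1 : SS A l = ⋃ i ∈ {i | i < k}, (fun n => ((Polynomial.X ^ ce (enum i) +
      Polynomial.C (ce (enum i) + i) + Polynomial.X) ^ 2 + Polynomial.C i :
        Polynomial ℕ).eval n) '' {n : ℕ | l i ≤ n ∧
      ∀ n' : ℕ, l i ≤ n' → n' ≤ n → Good (join A (tally (SS A l))) i n'} := by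
    ext m
    rw [mem_SS]
    simp only [Set.mem_iUnion, Set.mem_image, Set.mem_ofPred_eq, exists_prop]
    constructor
    · rintro ⟨i, n, h2, h3, h4⟩
      refine ⟨i, ?_, n, ⟨h3, h4⟩, ?_⟩
      · by_contra h5
        rw [hl i (by omega)] at h3
        simp at h3
      · rw [h2]
        simp only [Polynomial.eval_add, Polynomial.eval_pow, Polynomial.eval_X, Polynomial.eval_C,
          pos, rho]
        ring
    · rintro ⟨i, -, n, ⟨h3, h4⟩, h5⟩
      refine ⟨i, n, ?_, h3, h4⟩
      rw [← h5]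
      simp only [Polynomial.eval_add, Polynomial.eval_pow, Polynomial.eval_X, Polynomial.eval_C,
          pos, rho]
      ring
  rw [h1]
  refine tally_pattern (Set.finite_lt_nat k) _ ?_ _ ?_
  · intro i _ n
    simp only [Polynomial.eval_add, Polynomial.eval_pow, Polynomial.eval_X, Polynomial.eval_C]
    have h2 := Nat.le_self_pow (n := 2) (by norm_num) (n ^ ce (enum i) + (ce (enum i) + i) + n)
    omega
  · intro i _
    by_cases hT : l i = ⊤
    · left
      have : {n : ℕ | l i ≤ n ∧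
          ∀ n' : ℕ, l i ≤ n' → n' ≤ n → Good (join A (tally (SS A l))) i n'} = ∅ := by
        ext n
        simp [hT]
      rw [this]
      exact Set.finite_empty
    · obtain ⟨v, hv⟩ := ENat.ne_top_iff_exists.1 hT
      by_cases hall : ∀ n', v ≤ n' → Good (join A (tally (SS A l))) i n'
      · right
        refine ⟨v, ?_⟩
        ext n
        simp only [← hv, Nat.cast_le, Set.mem_ofPred_eq, Set.mem_Ici]
        exact ⟨fun h => h.1, fun h => ⟨h, fun n' h2 _ => hall n' h2⟩⟩
      · left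
        push Not at hall
        obtain ⟨n₀, h2, h3⟩ := hall
        refine (Set.finite_lt_nat n₀).subset fun n hn => ?_
        obtain ⟨h4, h5⟩ := hn
        rw [← hv] at h5
        by_contra h6
        exact h3 (h5 n₀ (by exact_mod_cast h2) (by simpa using h6))

end

/-! ## Use -/

theorem LocConst.of_continuous {Ψ : Oracle → DecisionProblem} (hΨ : Continuous Ψ) :
    LocConst Ψ := by
  intro X y
  have h2 : Continuous fun Y : Oracle => Ψ Y y := (continuous_apply y).comp hΨ
  exact h2.continuousAt.eventually ((isOpen_discrete {Ψ X y}).mem_nhds rfl)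

theorem exists_use {γ : Type} {Ψ : Oracle → List Bool → γ} (hΨ : LocConst Ψ) {X : Oracle}
    {B : List Bool → γ} (hX : Ψ X ≠ B) : ∃ u : ℕ, ∀ Y : Oracle,
      (∀ w : List Bool, w.length ≤ u → Y w = X w) → Ψ Y ≠ B := by
  obtain ⟨y, hy⟩ := Function.ne_iff.1 hX
  obtain ⟨W, hW, hWo, hXW⟩ := eventually_nhds_iff.1 (hΨ X y)
  obtain ⟨P, N, h3, h4⟩ := exists_cyl hWo hXW
  refine ⟨((P ++ N).map List.length).sum, fun Y hY h => ?_⟩
  have h5 : ∀ q ∈ P ++ N, Y q = X q := by
    intro q hq
    refine hY q ?_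
    exact List.single_le_sum (by simp) _ (List.mem_map_of_mem hq)
  have h6 : Y ∈ cyl P N := by
    refine ⟨fun q hq => ?_, fun q hq => ?_⟩
    · rw [h5 q (by simp [hq])]; exact h3.1 q hq
    · rw [h5 q (by simp [hq])]; exact h3.2 q hq
  have h7 : Ψ Y y = Ψ X y := hW _ (h4 h6)
  rw [h] at h7
  exact hy h7.symm

section

variable {γ : Type} (A : Oracle) (Ψ : ℕ → Oracle → List Bool → γ) (B : ℕ → List Bool → γ)

/-- the requirement number `k` for the starting times `l` -/
def Req (k : ℕ) (l : ℕ → ℕ∞) (u : ℕ) : Prop :=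
  Ψ k.unpair.1 (join A (tally (SS A l))) ≠ B k.unpair.2 →
    ∀ Y : Oracle, (∀ w : List Bool, w.length ≤ u → Y w = join A (tally (SS A l)) w) →
      Ψ k.unpair.1 Y ≠ B k.unpair.2

theorem exists_req (hΨ : ∀ e, LocConst (Ψ e)) (k : ℕ) (l : ℕ → ℕ∞) :
    ∃ u, Req A Ψ B k l u := by
  by_cases h : Ψ k.unpair.1 (join A (tally (SS A l))) = B k.unpair.2
  · exact ⟨0, fun h' => absurd h h'⟩
  · obtain ⟨u, hu⟩ := exists_use (hΨ _) h
    exact ⟨u, fun _ => hu⟩

/-- the stages: starting times chosen so far, and the last one -/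
noncomputable def st (use : ℕ → (ℕ → ℕ∞) → ℕ) : ℕ → (ℕ → ℕ∞) × ℕ
  | 0 => (fun _ => ⊤, 0)
  | k + 1 => (Function.update (st use k).1 k ((max (st use k).2 (use k (st use k).1) + 1 : ℕ) : ℕ∞),
      max (st use k).2 (use k (st use k).1) + 1)

theorem st_eq (use : ℕ → (ℕ → ℕ∞) → ℕ) (k i : ℕ) :
    (st use k).1 i = if i < k then (((st use (i + 1)).2 : ℕ) : ℕ∞) else ⊤ := by
  induction k with
  | zero => simp [st]
  | succ k ih =>
    by_cases h : i = k
    · subst h
      simp [st]
    · rw [st]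
      simp only [Function.update_of_ne h, ih]
      by_cases h2 : i < k
      · rw [if_pos h2, if_pos (by omega)]
      · rw [if_neg h2, if_neg (by omega)]

theorem st_mono (use : ℕ → (ℕ → ℕ∞) → ℕ) : StrictMono fun k => (st use k).2 := by
  refine strictMono_nat_of_lt_succ fun k => ?_
  have h : (st use (k + 1)).2 = max (st use k).2 (use k (st use k).1) + 1 := rfl
  simp only [h]
  omega

theorem use_lt (use : ℕ → (ℕ → ℕ∞) → ℕ) {k i : ℕ} (h : k ≤ i) :
    use k (st use k).1 < (st use (i + 1)).2 := by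
  have h1 : (st use (k + 1)).2 = max (st use k).2 (use k (st use k).1) + 1 := rfl
  have h2 : (st use (k + 1)).2 ≤ (st use (i + 1)).2 := (st_mono use).monotone (by omega)
  omega

end

/-- The tally oracle: `l` are the starting times. -/
theorem exists_tally {γ : Type} (A : Oracle) (Ψ : ℕ → Oracle → List Bool → γ)
    (hΨ : ∀ e, LocConst (Ψ e)) (BB : Set (List Bool → γ)) (hBB : BB.Countable)
    (hne : BB.Nonempty) :
    ∃ (T : Oracle) (l : ℕ → ℕ), Tally T ∧
      (∀ i n, T (un (pos i n)) = true ↔ l i ≤ n ∧ ∀ n', l i ≤ n' → n' ≤ n →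
        Good (join A T) i n') ∧
      ∀ e, Ψ e (join A T) ∈ BB → ∃ Q : Oracle, Tally Q ∧ Q ∈ P ∧
        Ψ e (join A Q) = Ψ e (join A T) := by
  obtain ⟨B, hB⟩ := hBB.exists_eq_range hne
  choose use huse using exists_req A Ψ B hΨ
  set l : ℕ → ℕ := fun i => (st use (i + 1)).2 with hl
  set L : ℕ → ℕ∞ := fun i => (l i : ℕ∞) with hL
  refine ⟨tally (SS A L), l, tally_tally _, fun i n => ?_, fun e he => ?_⟩
  · rw [tally_iff (SS A L) (un (pos i n)), un_length]
    simp only [true_and]
    rw [pos_mem_SS]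
    simp only [hL, Nat.cast_le]
  · have he' : Ψ e (join A (tally (SS A L))) ∈ Set.range B := hB ▸ he
    obtain ⟨b, hb⟩ := he'
    set k := Nat.pair e b with hk
    have hk1 : k.unpair.1 = e := by rw [hk, Nat.unpair_pair]
    have hk2 : k.unpair.2 = b := by rw [hk, Nat.unpair_pair]
    set lk : ℕ → ℕ∞ := (st use k).1 with hlk
    have hagree : ∀ i, lk i = L i ∨ (((use k lk : ℕ) : ℕ∞) < lk i ∧
        ((use k lk : ℕ) : ℕ∞) < L i) := by
      intro i
      rw [hlk, st_eq]
      by_cases h : i < k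
      · left
        rw [if_pos h]
      · right
        rw [if_neg h, ← hlk]
        refine ⟨ENat.natCast_lt_top _, ?_⟩
        rw [hL]
        simp only [Nat.cast_lt]
        exact use_lt use (by omega)
    have hsame : ∀ w : List Bool, w.length ≤ use k lk → join A (tally (SS A L)) w =
        join A (tally (SS A lk)) w := by
      refine fun w hw => join_congr (u := use k lk) (fun v hv => ?_) w hw
      refine tally_congr (u := use k lk) (fun m hm => ?_) v hv
      exact (SS_agree hagree hm.le).symm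
    have hQ : Ψ e (join A (tally (SS A lk))) = B b := by
      by_contra hne
      have h1 := huse k lk
      rw [Req, hk1, hk2] at h1
      exact h1 hne _ hsame hb.symm
    refine ⟨tally (SS A lk), tally_tally _, (isPolyTime_iff _).2 (SS_FP (k := k) fun i hi => ?_),
      by rw [hQ, hb]⟩
    rw [hlk, st_eq, if_neg (by omega)]

end Pool.Agent.Helper20.Cons
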