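import Mathlib
import Pool.Agent.Helper20.Cons.Code
import Pool.Agent.Helper22.Cons.Univ
import Pool.Agent.Helper22.OracleBaire
import Pool.Agent.Helper49.Cons.AccDefs
import Pool.Agent.Helper49.Cons.Alt
import Pool.Agent.Helper49.Cons.Trans

set_option autoImplicit false

/-!
# If NP = coNP relative to an oracle, then NP ∩ coNP has a complete language relative to the join
of the oracle with any tally oracle
-/

namespace Pool.Agent.Helper20.Cons

open Turing Function N487b59b3 N68a2faeb N793a5b8e Pool.Agent.Helper22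
open Pool.Agent.Helper49.Cons

namespace UnivNP

/-- the number of queries, as a word -/
def nu (p : List Bool × List Bool) : List Bool :=
  cNum (cf p.1) (cs (cs p.1)) (cd (cf (cs p.1)) p.2)

/-- the next query -/
def uq (p : (List Bool × List Bool) × List Bool) : List Bool :=
  (fjt (cf (cs (cf p.1.1))) (cd (cd (cf (cs p.1.1)) p.1.2) p.2) (cs (cs p.1.1))).take
    (cs (cs p.1.1)).length

/-- the output, with the bound for the witness -/
def uo (p : (List Bool × List Bool) × List Bool) : Bool :=
  decide (p.1.2.length ≤ (cs (cs p.1.1)).length) &&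
    cOut (cf p.1.1) (cs (cs p.1.1)) (cd (cf (cs p.1.1)) p.1.2) p.2

theorem FP.nu' : FP nu := by
  unfold nu cNum
  exact FP.take (by fun_prop) (by fun_prop)

theorem FP.uq' : FP uq := by
  unfold uq
  exact FP.take (by fun_prop) (by fun_prop)

theorem FP.uo' : FP uo := by
  have h4 : FP fun p : (List Bool × List Bool) × List Bool =>
      (fjt (cs (cs (cf p.1.1))) (cd (cd (cf (cs p.1.1)) p.1.2) p.2)
        (cs (cs p.1.1))).headD false :=
    FP.headD (by fun_prop) _
  unfold uo cOut
  fun_prop

/-- the universal verifier -/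
def M : OracleProc (List Bool × List Bool) Bool where
  clock := nu
  query := uq
  out := uo
  clock_poly := (isPolyTime_iff _).2 FP.nu'
  query_poly := (isPolyTime_iff _).2 FP.uq'
  out_poly := (isPolyTime_iff _).2 FP.uo'

theorem answers_eq (X : Oracle) (z w : List Bool) (k : ℕ) :
    M.answers X (z, w) k = cAns (cf z) (cs (cs z)) (cd (cf (cs z)) w) X k := by
  induction k with
  | zero => rfl
  | succ k ih =>
    rw [OracleProc.answers, cAns, ih]
    rfl

theorem run_iff (X : Oracle) (z w : List Bool) : M.run X (z, w) = true ↔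
    w.length ≤ (cs (cs z)).length ∧
      cRun (cf z) (cs (cs z)) (cd (cf (cs z)) w) X = true := by
  rw [OracleProc.run, answers_eq]
  show uo _ = true ↔ _
  rw [uo, Bool.and_eq_true, decide_eq_true_eq]
  rfl

theorem acc_iff (X : Oracle) (z : List Bool) : Accepts M Polynomial.X X z ↔
    cAcc (cf z) (cs (cs z)) X (cf (cs z)) := by
  simp only [Accepts, run_iff, Polynomial.eval_X]
  constructor
  · rintro ⟨w, _, h1, h2⟩
    exact ⟨w, h1, h2⟩
  · rintro ⟨w, h1, h2⟩
    exact ⟨w, h1.trans ((cs_length _).trans (cs_length _)), h1, h2⟩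

end UnivNP

/-- NP has a complete language relative to every oracle, even under reductions without oracle. -/
theorem exists_complete_NPo (X : Oracle) : ∃ L ∈ NPo X, ∀ L' ∈ NPo X, ManyOneReducible L' L := by
  classical
  refine ⟨fun z => decide (Accepts UnivNP.M Polynomial.X X z),
    ⟨Polynomial.X, UnivNP.M, fun z => by simp⟩, ?_⟩
  rintro L' ⟨p, M, h⟩
  obtain ⟨j, e, hj⟩ := exists_code M p
  let P : Polynomial ℕ := Polynomial.X ^ e + Polynomial.C e
  have hP : ∀ n, P.eval n = n ^ e + e := fun n => by simp [P]
  let f : List Bool → List Bool := fun x => cd j (cd x (un (P.eval x.length)))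
  have hf : FP f := by
    have h1 : FP fun x : List Bool => un (P.eval x.length) := FP.un_poly (by fun_prop) _
    show FP fun x : List Bool => cd j (cd x (un (P.eval x.length)))
    fun_prop
  refine ⟨f, (isPolyTime_iff _).2 hf, fun x => ?_⟩
  rw [Bool.eq_iff_iff, decide_eq_true_eq, UnivNP.acc_iff]
  show _ ↔ cAcc (cf (cd j (cd x (un (P.eval x.length))))) _ X _
  rw [cf_cd, cs_cd, cf_cd, cs_cd, hP, hj e le_rfl, h]

/-- NP = coNP relative to `A` goes up to the join of `A` with any tally oracle. -/
theorem NPo_eq_coNPo_join {A T : Oracle} (hT : Tally T) (h : NPo A = coNPo A) :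
    NPo (join A T) = coNPo (join A T) := by
  rw [← AltP_one, ← AltP_one', ← cls_accAlt, ← cls_accAlt] at h ⊢
  exact Set.Subset.antisymm (cls_transfer _ _ (accAlt_syntactic 1 true) hT h.subset)
    (cls_transfer _ _ (accAlt_syntactic 1 false) hT h.symm.subset)

/-- If NP = coNP relative to `A`, then NP ∩ coNP has a complete language relative to the join of
`A` with any tally oracle `T`, even under reductions without oracle. -/
theorem complete_of_NPo_eq_coNPo {A T : Oracle} (hT : Tally T) (h : NPo A = coNPo A) :
    ∃ L ∈ NPo (join A T) ∩ coNPo (join A T), ∀ L' ∈ NPo (join A T) ∩ coNPo (join A T),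
      ManyOneReducible L' L := by
  obtain ⟨L, hL, hc⟩ := exists_complete_NPo (join A T)
  exact ⟨L, ⟨hL, (NPo_eq_coNPo_join hT h).subset hL⟩, fun L' hL' => hc L' hL'.1⟩

theorem reducibleRel_of_manyOne {L' L : DecisionProblem} (h : ManyOneReducible L' L)
    (X : Oracle) : ReducibleRel X L' L := by
  obtain ⟨f, hf, h⟩ := h
  exact ⟨OracleProc.ofFP f ((isPolyTime_iff _).1 hf), h⟩

theorem join_mem_hasCompleteRel {A T : Oracle} (hT : Tally T) (h : NPo A = coNPo A) :
    join A T ∈ HasCompleteRel := by
  obtain ⟨L, hL, hc⟩ := complete_of_NPo_eq_coNPo hT h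
  exact ⟨L, hL, fun L' hL' => reducibleRel_of_manyOne (hc L' hL') _⟩

end Pool.Agent.Helper20.Cons
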