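import Mathlib
import Pool.Agent.Helper20.Cons.Rec

set_option autoImplicit false

/-!
# The recursion defining the tally oracle, for a general local predicate
-/

namespace Pool.Agent.Helper20.ConsG

open Turing Function N487b59b3 N68a2faeb N793a5b8e Pool.Agent.Helper22 Filter Topology
open Pool.Agent.Helper20.Cons (join Tally LocConst rho pos ce rho_mono rho_add_lt_pos pos_inj join_congr
  tally_congr tally_tally exists_use st st_eq st_mono use_lt)

/-- The predicate depends only on the words of length at most `rho i n`. -/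
def Local (G : Oracle → ℕ → ℕ → Prop) : Prop := ∀ (X Y : Oracle) (i n : ℕ),
  (∀ u : List Bool, u.length ≤ rho i n → X u = Y u) → (G X i n ↔ G Y i n)

section

variable (G : Oracle → ℕ → ℕ → Prop) (A : Oracle) (l : ℕ → ℕ∞)

/-- the position `m` is to be put into the set, if `F` is the part of the set below `m` -/
def Cond (F : Set ℕ) (m : ℕ) : Prop := ∃ i n : ℕ, m = pos i n ∧ l i ≤ n ∧
  ∀ n' : ℕ, l i ≤ n' → n' ≤ n → G (join A (tally F)) i n'

/-- the part of the set below a given number -/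
def pre : ℕ → Set ℕ
  | 0 => ∅
  | m + 1 => pre m ∪ {x | x = m ∧ Cond G A l (pre m) m}

/-- the set of the positions of the bits `1` -/
def SS : Set ℕ := {m | m ∈ pre G A l (m + 1)}

variable {G A l}

theorem mem_pre {m k : ℕ} : m ∈ pre G A l k ↔ m < k ∧ m ∈ SS G A l := by
  induction k with
  | zero => simp [pre]
  | succ k ih =>
    constructor
    · intro h
      rcases h with h | ⟨rfl, h⟩
      · have := ih.1 h
        exact ⟨by omega, this.2⟩
      · exact ⟨by omega, Or.inr ⟨rfl, h⟩⟩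
    · rintro ⟨h1, h2⟩
      rcases Nat.lt_succ_iff_lt_or_eq.1 h1 with h3 | rfl
      · exact Or.inl (ih.2 ⟨h3, h2⟩)
      · exact h2

theorem good_pre (hG : Local G) {i n n' : ℕ} (h : n' ≤ n) :
    G (join A (tally (pre G A l (pos i n)))) i n' ↔ G (join A (tally (SS G A l))) i n' := by
  refine hG _ _ _ _ fun u hu => join_congr (u := pos i n) ?_ u ?_
  · refine tally_congr fun m hm => ?_
    rw [mem_pre]
    exact ⟨fun h => h.2, fun h => ⟨hm, h⟩⟩
  · have h1 := rho_mono i h
    have h2 := rho_add_lt_pos i n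
    omega

theorem mem_SS (hG : Local G) {m : ℕ} : m ∈ SS G A l ↔ ∃ i n : ℕ, m = pos i n ∧ l i ≤ n ∧
    ∀ n' : ℕ, l i ≤ n' → n' ≤ n → G (join A (tally (SS G A l))) i n' := by
  have h1 : m ∈ SS G A l ↔ Cond G A l (pre G A l m) m := by
    constructor
    · rintro (h | ⟨-, h⟩)
      · exact absurd (mem_pre.1 h).1 (lt_irrefl _)
      · exact h
    · intro h
      exact Or.inr ⟨rfl, h⟩
  rw [h1]
  constructor
  · rintro ⟨i, n, rfl, h2, h3⟩
    exact ⟨i, n, rfl, h2, fun n' h4 h5 => (good_pre hG h5).1 (h3 n' h4 h5)⟩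
  · rintro ⟨i, n, rfl, h2, h3⟩
    exact ⟨i, n, rfl, h2, fun n' h4 h5 => (good_pre hG h5).2 (h3 n' h4 h5)⟩

theorem pos_mem_SS (hG : Local G) {i n : ℕ} : pos i n ∈ SS G A l ↔ l i ≤ n ∧
    ∀ n' : ℕ, l i ≤ n' → n' ≤ n → G (join A (tally (SS G A l))) i n' := by
  rw [mem_SS hG]
  constructor
  · rintro ⟨i', n', h, h'⟩
    obtain ⟨rfl, rfl⟩ := pos_inj h
    exact h'
  · intro h
    exact ⟨i, n, rfl, h⟩

theorem pre_agree {l' : ℕ → ℕ∞} {u : ℕ} (h : ∀ i, l i = l' i ∨ ((u : ℕ∞) < l i ∧ (u : ℕ∞) < l' i))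
    {m : ℕ} (hm : m ≤ u + 1) : pre G A l m = pre G A l' m := by
  induction m with
  | zero => rfl
  | succ m ih =>
    have h1 := ih (by omega)
    have key : ∀ {l l' : ℕ → ℕ∞}, (∀ i, l i = l' i ∨ ((u : ℕ∞) < l i ∧ (u : ℕ∞) < l' i)) →
        ∀ F, Cond G A l F m → Cond G A l' F m := by
      rintro l l' h F ⟨i, n, h2, h3, h4⟩
      rcases h i with h5 | ⟨h5, -⟩
      · exact ⟨i, n, h2, h5 ▸ h3, h5 ▸ h4⟩
      · exfalso
        have h6 : (u : ℕ∞) < n := h5.trans_le h3
        have h7 : u < n := by exact_mod_cast h6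
        have h8 := rho_add_lt_pos i n
        omega
    have h2 : Cond G A l (pre G A l' m) m ↔ Cond G A l' (pre G A l' m) m :=
      ⟨key h _, key (fun i => (h i).imp (fun e => e.symm) fun e => ⟨e.2, e.1⟩) _⟩
    rw [pre, pre, h1, h2]

theorem SS_agree {l' : ℕ → ℕ∞} {u : ℕ} (h : ∀ i, l i = l' i ∨ ((u : ℕ∞) < l i ∧ (u : ℕ∞) < l' i))
    {m : ℕ} (hm : m ≤ u) : m ∈ SS G A l ↔ m ∈ SS G A l' := by
  rw [SS, SS, Set.mem_ofPred_eq, Set.mem_ofPred_eq, pre_agree h (by omega)]

/-- if only finitely many codes are started, the set is in P -/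
theorem SS_FP (hG : Local G) {k : ℕ} (hl : ∀ i, k ≤ i → l i = ⊤) : FP (tally (SS G A l)) := by
  classical
  have h1 : SS G A l = ⋃ i ∈ {i | i < k}, (fun n => ((Polynomial.X ^ ce (enum i) +
      Polynomial.C (ce (enum i) + i) + Polynomial.X) ^ 2 + Polynomial.C i :
        Polynomial ℕ).eval n) '' {n : ℕ | l i ≤ n ∧
      ∀ n' : ℕ, l i ≤ n' → n' ≤ n → G (join A (tally (SS G A l))) i n'} := by
    ext m
    rw [mem_SS hG]
    simp only [Set.mem_iUnion, Set.mem_image, Set.mem_ofPred_eq, exists_prop]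
    constructor
    · rintro ⟨i, n, h2, h3, h4⟩
      refine ⟨i, ?_, n, ⟨h3, h4⟩, ?_⟩
      · by_contra h5
        rw [hl i (by omega)] at h3
        simp at h3
      · rw [h2]
        simp only [Polynomial.eval_add, Polynomial.eval_pow, Polynomial.eval_X, Polynomial.eval_C,
          pos, rho]
        ring
    · rintro ⟨i, -, n, ⟨h3, h4⟩, h5⟩
      refine ⟨i, n, ?_, h3, h4⟩
      rw [← h5]
      simp only [Polynomial.eval_add, Polynomial.eval_pow, Polynomial.eval_X, Polynomial.eval_C,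
          pos, rho]
      ring
  rw [h1]
  refine tally_pattern (Set.finite_lt_nat k) _ ?_ _ ?_
  · intro i _ n
    simp only [Polynomial.eval_add, Polynomial.eval_pow, Polynomial.eval_X, Polynomial.eval_C]
    have h2 := Nat.le_self_pow (n := 2) (by norm_num) (n ^ ce (enum i) + (ce (enum i) + i) + n)
    omega
  · intro i _
    by_cases hT : l i = ⊤
    · left
      have : {n : ℕ | l i ≤ n ∧
          ∀ n' : ℕ, l i ≤ n' → n' ≤ n → G (join A (tally (SS G A l))) i n'} = ∅ := by
        ext n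
        simp [hT]
      rw [this]
      exact Set.finite_empty
    · obtain ⟨v, hv⟩ := ENat.ne_top_iff_exists.1 hT
      by_cases hall : ∀ n', v ≤ n' → G (join A (tally (SS G A l))) i n'
      · right
        refine ⟨v, ?_⟩
        ext n
        simp only [← hv, Nat.cast_le, Set.mem_ofPred_eq, Set.mem_Ici]
        exact ⟨fun h => h.1, fun h => ⟨h, fun n' h2 _ => hall n' h2⟩⟩
      · left
        push Not at hall
        obtain ⟨n₀, h2, h3⟩ := hall
        refine (Set.finite_lt_nat n₀).subset fun n hn => ?_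
        obtain ⟨h4, h5⟩ := hn
        rw [← hv] at h5
        by_contra h6
        exact h3 (h5 n₀ (by exact_mod_cast h2) (by simpa using h6))

end

/-! ## Use -/

section

variable {γ : Type} (G : Oracle → ℕ → ℕ → Prop) (A : Oracle) (Ψ : ℕ → Oracle → List Bool → γ) (B : ℕ → List Bool → γ)

/-- the requirement number `k` for the starting times `l` -/
def Req (k : ℕ) (l : ℕ → ℕ∞) (u : ℕ) : Prop :=
  Ψ k.unpair.1 (join A (tally (SS G A l))) ≠ B k.unpair.2 →
    ∀ Y : Oracle, (∀ w : List Bool, w.length ≤ u → Y w = join A (tally (SS G A l)) w) →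
      Ψ k.unpair.1 Y ≠ B k.unpair.2

theorem exists_req (hΨ : ∀ e, LocConst (Ψ e)) (k : ℕ) (l : ℕ → ℕ∞) :
    ∃ u, Req G A Ψ B k l u := by
  by_cases h : Ψ k.unpair.1 (join A (tally (SS G A l))) = B k.unpair.2
  · exact ⟨0, fun h' => absurd h h'⟩
  · obtain ⟨u, hu⟩ := exists_use (hΨ _) h
    exact ⟨u, fun _ => hu⟩

end

/-- The tally oracle: `l` are the starting times. -/
theorem exists_tally {G : Oracle → ℕ → ℕ → Prop} (hG : Local G) {γ : Type} (A : Oracle) (Ψ : ℕ → Oracle → List Bool → γ)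
    (hΨ : ∀ e, LocConst (Ψ e)) (BB : Set (List Bool → γ)) (hBB : BB.Countable)
    (hne : BB.Nonempty) :
    ∃ (T : Oracle) (l : ℕ → ℕ), Tally T ∧
      (∀ i n, T (un (pos i n)) = true ↔ l i ≤ n ∧ ∀ n', l i ≤ n' → n' ≤ n →
        G (join A T) i n') ∧
      ∀ e, Ψ e (join A T) ∈ BB → ∃ Q : Oracle, Tally Q ∧ Q ∈ P ∧
        Ψ e (join A Q) = Ψ e (join A T) := by
  obtain ⟨B, hB⟩ := hBB.exists_eq_range hne
  choose use huse using exists_req G A Ψ B hΨ
  set l : ℕ → ℕ := fun i => (st use (i + 1)).2 with hl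
  set L : ℕ → ℕ∞ := fun i => (l i : ℕ∞) with hL
  refine ⟨tally (SS G A L), l, tally_tally _, fun i n => ?_, fun e he => ?_⟩
  · rw [tally_iff (SS G A L) (un (pos i n)), un_length]
    simp only [true_and]
    rw [pos_mem_SS hG]
    simp only [hL, Nat.cast_le]
  · have he' : Ψ e (join A (tally (SS G A L))) ∈ Set.range B := hB ▸ he
    obtain ⟨b, hb⟩ := he'
    set k := Nat.pair e b with hk
    have hk1 : k.unpair.1 = e := by rw [hk, Nat.unpair_pair]
    have hk2 : k.unpair.2 = b := by rw [hk, Nat.unpair_pair]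
    set lk : ℕ → ℕ∞ := (st use k).1 with hlk
    have hagree : ∀ i, lk i = L i ∨ (((use k lk : ℕ) : ℕ∞) < lk i ∧
        ((use k lk : ℕ) : ℕ∞) < L i) := by
      intro i
      rw [hlk, st_eq]
      by_cases h : i < k
      · left
        rw [if_pos h]
      · right
        rw [if_neg h, ← hlk]
        refine ⟨ENat.natCast_lt_top _, ?_⟩
        rw [hL]
        simp only [Nat.cast_lt]
        exact use_lt use (by omega)
    have hsame : ∀ w : List Bool, w.length ≤ use k lk → join A (tally (SS G A L)) w =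
        join A (tally (SS G A lk)) w := by
      refine fun w hw => join_congr (u := use k lk) (fun v hv => ?_) w hw
      refine tally_congr (u := use k lk) (fun m hm => ?_) v hv
      exact (SS_agree hagree hm.le).symm
    have hQ : Ψ e (join A (tally (SS G A lk))) = B b := by
      by_contra hne
      have h1 := huse k lk
      rw [Req, hk1, hk2] at h1
      exact h1 hne _ hsame hb.symm
    refine ⟨tally (SS G A lk), tally_tally _, (isPolyTime_iff _).2 (SS_FP hG (k := k) fun i hi => ?_),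
      by rw [hQ, hb]⟩
    rw [hlk, st_eq, if_neg (by omega)]

end Pool.Agent.Helper20.ConsG
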