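import Mathlib
import Pool.Agent.Helper20.Cons.CodeG
import Pool.Agent.Helper20.Cons.RecG
import Pool.Agent.Helper22.Cons.Univ

set_option autoImplicit false

/-!
# The universal language of a class given by an acceptance type, relative to an oracle with the
valid codes in its tally part
-/

namespace Pool.Agent.Helper20.ConsG

open Turing Function N487b59b3 N68a2faeb N793a5b8e Pool.Agent.Helper22
open Pool.Agent.Helper20.Cons Pool.Agent.Helper49.Cons
open Pool.Agent.Helper22.ConsUniv (cc xx ee rr pok bitq rr_eq bitq_eq)

/-- the number of the acceptance type of the code number `i` -/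
def tag (i : ℕ) : ℕ := (cf (cf (enum i))).length

/-- code of the procedure for the size -/
def jg (i : ℕ) : List Bool := cs (cf (enum i))

/-- code of the procedure for the predicate -/
def jM (i : ℕ) : List Bool := cf (cs (enum i))

/-- the coded verdict is never `none` on the words of length `n` -/
def GG (Φ : ℕ → Acc) (X : Oracle) (i n : ℕ) : Prop := ∀ x : List Bool, x.length = n →
  cVer (Φ (tag i)) (jg i) (jM i) (un (rho i n)) X x ≠ none

theorem GG_local (Φ : ℕ → Acc) : Local (GG Φ) := by
  intro X Y i n h
  have h' : ∀ u : List Bool, u.length ≤ (un (rho i n)).length → X u = Y u := by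
    simpa using h
  simp only [GG, cVer_congr h']

/-! ## Procedures -/

/-- asks the bit -/
def askBit : OracleProc (List Bool) Bool where
  clock := fun _ => [true]
  query := fun s => bitq s.1
  out := fun s => s.2.headD false
  clock_poly := (isPolyTime_iff _).2 (FP.const _)
  query_poly := (isPolyTime_iff _).2 (ConsUniv.FP.bitq'.comp FP.fst)
  out_poly := (isPolyTime_iff _).2 (FP.headD FP.snd _)

theorem askBit_run (X : Oracle) (z : List Bool) : askBit.run X z = X (bitq z) := rfl

/-- runs a code `j` on `y` with the bound `r`; the input is `(j, (r, y))` -/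
def runW : OracleProc (List Bool × (List Bool × List Bool)) (List Bool) where
  clock := fun a => cNum a.1 a.2.1 a.2.2
  query := fun s => (fjt (cf (cs s.1.1)) (cd s.1.2.2 s.2) s.1.2.1).take s.1.2.1.length
  out := fun s => cOutW s.1.1 s.1.2.1 s.1.2.2 s.2
  clock_poly := (isPolyTime_iff _).2 (by
    unfold cNum
    exact FP.take (by fun_prop) (by fun_prop))
  query_poly := (isPolyTime_iff _).2 (FP.take (by fun_prop) (by fun_prop))
  out_poly := (isPolyTime_iff _).2 (by
    unfold cOutW
    exact FP.take (by fun_prop) (by fun_prop))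

theorem runW_answers (X : Oracle) (j r y : List Bool) (k : ℕ) :
    runW.answers X (j, (r, y)) k = cAns j r y X k := by
  induction k with
  | zero => rfl
  | succ k ih => rw [OracleProc.answers, cAns, ih]; rfl

theorem runW_run (X : Oracle) (j r y : List Bool) :
    runW.run X (j, (r, y)) = cRunW j r y X := by
  rw [OracleProc.run, runW_answers]
  rfl

/-- the same with a Boolean output -/
def runB : OracleProc (List Bool × (List Bool × List Bool)) Bool where
  clock := fun a => cNum a.1 a.2.1 a.2.2
  query := fun s => (fjt (cf (cs s.1.1)) (cd s.1.2.2 s.2) s.1.2.1).take s.1.2.1.length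
  out := fun s => cOut s.1.1 s.1.2.1 s.1.2.2 s.2
  clock_poly := (isPolyTime_iff _).2 (by
    unfold cNum
    exact FP.take (by fun_prop) (by fun_prop))
  query_poly := (isPolyTime_iff _).2 (FP.take (by fun_prop) (by fun_prop))
  out_poly := (isPolyTime_iff _).2 (by
    have h4 : FP fun p : (List Bool × (List Bool × List Bool)) × List Bool =>
        (fjt (cs (cs p.1.1)) (cd p.1.2.2 p.2) p.1.2.1).headD false := FP.headD (by fun_prop) _
    unfold cOut
    fun_prop)

theorem runB_answers (X : Oracle) (j r y : List Bool) (k : ℕ) :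
    runB.answers X (j, (r, y)) k = cAns j r y X k := by
  induction k with
  | zero => rfl
  | succ k ih => rw [OracleProc.answers, cAns, ih]; rfl

theorem runB_run (X : Oracle) (j r y : List Bool) :
    runB.run X (j, (r, y)) = cRun j r y X := by
  rw [OracleProc.run, runB_answers]
  rfl

/-- the code in the instance is valid for the type number `t`, apart from the bit -/
def okc (t : ℕ) (z : List Bool) : Bool := pok z && leneq (cf (cf (cc z))) (un t)

theorem FP.okc' (t : ℕ) : FP (okc t) := by
  have h1 := ConsUniv.FP.pok'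
  have h2 := ConsUniv.FP.cc'
  unfold okc
  fun_prop

/-- the condition for running the code of the instance -/
theorem exists_gU (t : ℕ) (m₁ m₀ : ℕ) : ∃ K : OracleProc (List Bool) (List Bool),
    ∀ X z, K.run X z = if z.isEmpty then un m₁ else
      if X (bitq z) && okc t z then cRunW (cs (cf (cc z))) (rr z) (xx z) X else un m₀ := by
  have h1 := ConsUniv.FP.cc'
  have h2 := ConsUniv.FP.rr'
  have h3 := ConsUniv.FP.xx'
  have h4 := FP.okc' t
  obtain ⟨N, hN⟩ := exists_post
    (Pool.Agent.Helper49.Cons.pre runW (fun s : List Bool × Bool => (cs (cf (cc s.1)), (rr s.1, xx s.1)))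
      (by
        have e1 : FP fun s : List Bool × Bool => cc s.1 := h1.comp FP.fst
        have e2 : FP fun s : List Bool × Bool => rr s.1 := h2.comp FP.fst
        have e3 : FP fun s : List Bool × Bool => xx s.1 := h3.comp FP.fst
        fun_prop))
    (fun s : (List Bool × Bool) × List Bool => if s.1.1.isEmpty then un m₁ else
      if s.1.2 && okc t s.1.1 then s.2 else un m₀) (by
        have e4 : FP fun s : (List Bool × Bool) × List Bool => okc t s.1.1 :=
          h4.comp (by fun_prop)
        fun_prop)
  obtain ⟨K, hK⟩ := exists_bind askBit N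
  refine ⟨K, fun X z => ?_⟩
  rw [hK, hN, pre_run, runW_run, askBit_run]

theorem exists_MU (t : ℕ) (f₁ f₀ : List (List Bool) → Bool) (h₁ : FP f₁) (h₀ : FP f₀) :
    ∃ K : OracleProc (List Bool × List (List Bool)) Bool,
    ∀ X z ws, K.run X (z, ws) = if z.isEmpty then f₁ ws else
      if X (bitq z) && okc t z then cRun (cf (cs (cc z))) (rr z) (cd (xx z) (lc ws)) X
      else f₀ ws := by
  have h1 := ConsUniv.FP.cc'
  have h2 := ConsUniv.FP.rr'
  have h3 := ConsUniv.FP.xx'
  have h4 := FP.okc' t
  obtain ⟨N, hN⟩ := exists_post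
    (Pool.Agent.Helper49.Cons.pre runB (fun s : (List Bool × List (List Bool)) × Bool =>
        (cf (cs (cc s.1.1)), (rr s.1.1, cd (xx s.1.1) (lc s.1.2))))
      (by
        have e1 : FP fun s : (List Bool × List (List Bool)) × Bool => cc s.1.1 :=
          h1.comp (by fun_prop)
        have e2 : FP fun s : (List Bool × List (List Bool)) × Bool => rr s.1.1 :=
          h2.comp (by fun_prop)
        have e3 : FP fun s : (List Bool × List (List Bool)) × Bool => xx s.1.1 :=
          h3.comp (by fun_prop)
        have e4 : FP fun s : (List Bool × List (List Bool)) × Bool => lc s.1.2 :=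
          FP.lc'.comp (by fun_prop)
        fun_prop))
    (fun s : ((List Bool × List (List Bool)) × Bool) × Bool => if s.1.1.1.isEmpty then f₁ s.1.1.2
      else if s.1.2 && okc t s.1.1.1 then s.2 else f₀ s.1.1.2) (by
        have e4 : FP fun s : ((List Bool × List (List Bool)) × Bool) × Bool =>
          okc t s.1.1.1 := h4.comp (by fun_prop)
        have e5 : FP fun s : ((List Bool × List (List Bool)) × Bool) × Bool => f₁ s.1.1.2 :=
          h₁.comp (by fun_prop)
        have e6 : FP fun s : ((List Bool × List (List Bool)) × Bool) × Bool => f₀ s.1.1.2 :=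
          h₀.comp (by fun_prop)
        fun_prop)
  obtain ⟨K, hK⟩ := exists_bind
    (Pool.Agent.Helper49.Cons.pre askBit (fun s : List Bool × List (List Bool) => s.1) FP.fst) N
  refine ⟨K, fun X z ws => ?_⟩
  rw [hK, hN]
  simp only [pre_run, runB_run, askBit_run]

/-! ## Finite tables -/

theorem exists_table (N : ℕ) (f : List (List Bool) → Bool) :
    ∃ f' : List (List Bool) → Bool, FP f' ∧ ∀ ws, tl ws ≤ N → f' ws = f ws := by
  classical
  have hfin : {ws : List (List Bool) | tl ws ≤ N ∧ f ws = true}.Finite :=
    (finite_tl N).subset fun ws hws => hws.1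
  set S : List (List Bool) := hfin.toFinset.toList.map lc with hS
  refine ⟨fun ws => wmem S (lc ws), FP.wmem (FP.const S) FP.lc', fun ws hws => ?_⟩
  rw [Bool.eq_iff_iff, wmem_iff, hS, List.mem_map]
  constructor
  · rintro ⟨ws', h1, h2⟩
    have h3 := lc_injective h2
    subst h3
    rw [Finset.mem_toList, Set.Finite.mem_toFinset] at h1
    exact h1.2
  · intro h
    refine ⟨ws, ?_, rfl⟩
    rw [Finset.mem_toList, Set.Finite.mem_toFinset]
    exact ⟨hws, h⟩

/-- a constant verdict: the best approximation of `b` -/
theorem exists_const (Φ : Acc) (h : ∃ m f, Φ.acc m f ≠ none) (b : Bool) :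
    ∃ (m : ℕ) (f : List (List Bool) → Bool), FP f ∧ Φ.acc m f ≠ none ∧
      ((∃ m' f', Φ.acc m' f' = some b) → Φ.acc m f = some b) := by
  have h1 : ∃ m f, Φ.acc m f ≠ none ∧
      ((∃ m' f', Φ.acc m' f' = some b) → Φ.acc m f = some b) := by
    by_cases hb : ∃ m' f', Φ.acc m' f' = some b
    · obtain ⟨m, f, hf⟩ := hb
      exact ⟨m, f, by simp [hf], fun _ => hf⟩
    · obtain ⟨m, f, hf⟩ := h
      exact ⟨m, f, hf, fun h' => (hb h').elim⟩
  obtain ⟨m, f, h2, h3⟩ := h1
  obtain ⟨f', hf', hff⟩ := exists_table (Φ.size.eval m) f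
  have h4 : Φ.acc m f' = Φ.acc m f := Φ.loc _ _ _ hff
  exact ⟨m, f', hf', by rw [h4]; exact h2, fun h' => by rw [h4]; exact h3 h'⟩

/-- The class given by the type number `t` has a complete language, as soon as it is not empty and
the tally part of the oracle holds the valid codes. -/
theorem univ_complete_G (Φ : ℕ → Acc) (A T : Oracle) (l : ℕ → ℕ)
    (h : ∀ i n, T (un (pos i n)) = true ↔
      l i ≤ n ∧ ∀ n', l i ≤ n' → n' ≤ n → GG Φ (join A T) i n') (t : ℕ)
    (hne : (Cls (Φ t) (join A T)).Nonempty) :
    ∃ L ∈ Cls (Φ t) (join A T), ∀ L' ∈ Cls (Φ t) (join A T), ManyOneReducible L' L := by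
  classical
  set X : Oracle := join A T with hX
  have hsome : ∃ m f, (Φ t).acc m f ≠ none := by
    obtain ⟨L, g, M, hL⟩ := hne
    exact ⟨_, _, by rw [← verdict.eq_def (Φ t) g M X [], hL]; simp⟩
  obtain ⟨m₁, f₁, hf₁, hn₁, hc₁⟩ := exists_const (Φ t) hsome true
  obtain ⟨m₀, f₀, hf₀, hn₀, hc₀⟩ := exists_const (Φ t) hsome false
  obtain ⟨gU, hgU⟩ := exists_gU t m₁ m₀
  obtain ⟨MU, hMU⟩ := exists_MU t f₁ f₀ hf₁ hf₀
  have hbit : ∀ z, pok z = true → (X (bitq z) = true ↔ T (un (pos (cf z).length (xx z).length))
      = true) := by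
    intro z hz
    rw [bitq_eq hz, hX]
    rfl
  -- the verdicts
  have hv : ∀ z, verdict (Φ t) gU MU X z = if z.isEmpty then (Φ t).acc m₁ f₁ else
      if X (bitq z) && okc t z then cVer (Φ t) (cs (cf (cc z))) (cf (cs (cc z))) (rr z) X (xx z)
      else (Φ t).acc m₀ f₀ := by
    intro z
    rw [verdict, hgU]
    simp only [hMU]
    by_cases h1 : z.isEmpty = true
    · simp only [h1, if_true, un_length]
    · by_cases h2 : (X (bitq z) && okc t z) = true
      · simp only [h1, h2, if_true, Bool.false_eq_true, if_false]
        rfl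
      · simp only [h1, h2, Bool.false_eq_true, if_false, un_length]
  have hvn : ∀ z, verdict (Φ t) gU MU X z ≠ none := by
    intro z
    rw [hv]
    by_cases h1 : z.isEmpty = true
    · rw [if_pos h1]; exact hn₁
    rw [if_neg h1]
    by_cases h2 : (X (bitq z) && okc t z) = true
    · rw [if_pos h2]
      rw [Bool.and_eq_true, okc, Bool.and_eq_true, leneq_iff, un_length] at h2
      obtain ⟨h3, h4, h5⟩ := h2
      have h6 := (h _ _).1 ((hbit z h4).1 h3)
      have h7 := h6.2 _ h6.1 le_rfl (xx z) rfl
      rw [tag, jg, jM, ← enumU_eq, ← rr_eq h4] at h7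
      have h8 : (cf (cf (enumU (cf z)))).length = t := h5
      rw [h8] at h7
      exact h7
    · rw [if_neg h2]; exact hn₀
  refine ⟨fun z => (verdict (Φ t) gU MU X z).getD false, ⟨gU, MU, fun z => ?_⟩, ?_⟩
  · obtain ⟨b, hb⟩ := Option.ne_none_iff_exists'.1 (hvn z)
    simp only [hb, Option.getD_some]
  -- completeness
  rintro L' ⟨g, M, hL'⟩
  obtain ⟨jg', jM', e, hj⟩ := exists_code_verdict (Φ t) g M
  obtain ⟨i, hi⟩ := enum_surj (cd (cd (un t) jg') (cd jM' (un e)))
  have hce : ce (enum i) = e := by rw [ce, hi, cs_cd, cs_cd, un_length]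
  have hrho : ∀ n, rho i n = n ^ e + e := fun n => by rw [rho, hce]
  have htag : tag i = t := by rw [tag, hi, cf_cd, cf_cd, un_length]
  have hjg : jg i = jg' := by rw [jg, hi, cf_cd, cs_cd]
  have hjM : jM i = jM' := by rw [jM, hi, cs_cd, cf_cd]
  have hver : ∀ x : List Bool, cVer (Φ t) jg' jM' (un (rho i x.length)) X x = some (L' x) :=
    fun x => by rw [hrho, hj e le_rfl, hL']
  have hgood : ∀ n, GG Φ X i n := by
    intro n x hx
    rw [htag, hjg, hjM, ← hx, hver]
    simp
  have hT : ∀ n, T (un (pos i n)) = true ↔ l i ≤ n := fun n => by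
    rw [h]
    exact ⟨fun h' => h'.1, fun h' => ⟨h', fun n' _ _ => hgood n'⟩⟩
  -- the reduction
  have hfin : {x : List Bool | x.length ≤ l i ∧ L' x = true}.Finite :=
    (List.finite_length_le Bool (l i)).subset fun x hx => hx.1
  set S : List (List Bool) := hfin.toFinset.toList with hS
  have hmem : ∀ x : List Bool, x.length ≤ l i → (wmem S x = true ↔ L' x = true) := fun x hx => by
    rw [wmem_iff, hS, Finset.mem_toList, Set.Finite.mem_toFinset, Set.mem_ofPred_eq]
    exact ⟨fun h' => h'.2, fun h' => ⟨hx, h'⟩⟩
  let P : Polynomial ℕ := Polynomial.X ^ e + Polynomial.C e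
  have hP : ∀ n, P.eval n = n ^ e + e := fun n => by simp [P]
  let f : List Bool → List Bool := fun x =>
    if decide (x.length ≤ (un (l i)).length) then
      (if wmem S x then [] else cd [] (cd [true] []))
    else cd (un i) (cd x (un (P.eval x.length)))
  have hf : FP f := by
    have h1 : FP fun x : List Bool => un (P.eval x.length) := FP.un_poly (by fun_prop) _
    show FP fun x : List Bool => if decide (x.length ≤ (un (l i)).length) then
      (if wmem S x then [] else cd [] (cd [true] []))
    else cd (un i) (cd x (un (P.eval x.length)))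
    fun_prop
  refine ⟨f, (isPolyTime_iff _).2 hf, fun x => ?_⟩
  show L' x = (verdict (Φ t) gU MU X (f x)).getD false
  rw [hv]
  by_cases hx : x.length ≤ l i
  · have hd : decide (x.length ≤ (un (l i)).length) = true := by
      rw [decide_eq_true_eq, un_length]; exact hx
    by_cases hw : wmem S x = true
    · have hfx : f x = [] := by simp only [f, hd, hw, if_true]
      have hLx := (hmem x hx).1 hw
      rw [hfx, List.isEmpty_nil, if_pos rfl, hc₁ ⟨_, _, (hL' x).trans (by rw [hLx])⟩, hLx]
      rfl
    · have hfx : f x = cd [] (cd [true] []) := by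
        simp only [f, hd, if_true, hw, if_false, Bool.false_eq_true]
      have hLx : L' x = false := by
        rw [Bool.eq_false_iff]
        exact fun h' => hw ((hmem x hx).2 h')
      have h1 : (cd [] (cd [true] [])).isEmpty = false := rfl
      have h2 : okc t (cd [] (cd [true] [])) = false := by
        have h3 : pok (cd [] (cd [true] [])) = false := by
          rw [Bool.eq_false_iff]
          intro h'
          have h2 := (padok_iff _ _ _).1 h'
          rw [show xx (cd [] (cd [true] [])) = [true] by rw [xx, cs_cd, cf_cd], cs_cd, cs_cd] at h2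
          simp at h2
        rw [okc, h3, Bool.false_and]
      rw [hfx, h1, h2, Bool.and_false]
      simp only [Bool.false_eq_true, if_false]
      rw [hc₀ ⟨_, _, (hL' x).trans (by rw [hLx])⟩, hLx]
      rfl
  · have hd : decide (x.length ≤ (un (l i)).length) = false := by
      rw [decide_eq_false_iff_not, un_length]; exact hx
    have hfx : f x = cd (un i) (cd x (un (x.length ^ e + e))) := by
      simp only [f, hd, Bool.false_eq_true, if_false, hP]
    rw [hfx]
    set z := cd (un i) (cd x (un (x.length ^ e + e))) with hz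
    have hzx : xx z = x := by rw [xx, hz, cs_cd, cf_cd]
    have hzc : cf z = un i := by rw [hz, cf_cd]
    have hcc : cc z = cd (cd (un t) jg') (cd jM' (un e)) := by
      rw [cc, hzc, enumU_eq, un_length, hi]
    have hee : ee z = un e := by rw [ee, hcc, cs_cd, cs_cd]
    have hpok : pok z = true := by
      rw [pok, padok_iff, hzx, hee, hz, cs_cd, cs_cd, un_length, un_length]
    have hokc : okc t z = true := by
      rw [okc, hpok, Bool.true_and, leneq_iff, hcc, cf_cd, cf_cd]
    have hzr : rr z = un (rho i x.length) := by rw [rr_eq hpok, hzc, hzx, un_length]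
    have hne : z.isEmpty = false := by
      rw [List.isEmpty_eq_false_iff]
      intro h0
      have h1 := congrArg List.length h0
      rw [hz, cd_length] at h1
      simp at h1
    have hb : X (bitq z) = true := by
      rw [hbit z hpok, hzc, hzx, un_length, hT]
      omega
    rw [hne, hb, hokc, hcc, cf_cd, cs_cd, cs_cd, cf_cd, hzr, hzx, hver]
    simp

end Pool.Agent.Helper20.ConsG
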