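import Mathlib
import Pool.Agent.Helper20.Cons.UnivG
import Pool.Agent.Helper49.Cons.Alt
import Pool.Agent.Helper49.Cons.Trans

set_option autoImplicit false

/-!
# NP ∩ coNP as the class of an acceptance type; the tally oracle for all types
-/

namespace Pool.Agent.Helper20.ConsG

open Turing Function N487b59b3 N68a2faeb N793a5b8e Pool.Agent.Helper22 Filter Topology
open Pool.Agent.Helper20.Cons Pool.Agent.Helper49.Cons

/-- some short `w` with the flag `b` -/
def Wit (n : ℕ) (f : List (List Bool) → Bool) (b : Bool) : Prop :=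
  ∃ w : List Bool, w.length ≤ n ∧ f [w, [b]] = true

theorem wit_congr {n : ℕ} {f g : List (List Bool) → Bool}
    (h : ∀ ws, tl ws ≤ n + 3 → f ws = g ws) (b : Bool) : Wit n f b ↔ Wit n g b := by
  unfold Wit
  refine exists_congr fun w => and_congr_right fun hw => ?_
  rw [h]
  simp [tl]
  omega

open Classical in
/-- the acceptance type of NP ∩ coNP -/
noncomputable def accNC : Acc where
  size := Polynomial.X + Polynomial.C 3
  acc := fun n f => if Wit n f true ∧ ¬ Wit n f false then some true else
    if Wit n f false ∧ ¬ Wit n f true then some false else none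
  loc := by
    intro n f g h
    have h' : ∀ ws, tl ws ≤ n + 3 → f ws = g ws := by simpa using h
    simp only [wit_congr h']

theorem accNC_acc (n : ℕ) (f : List (List Bool) → Bool) (c : Bool) :
    accNC.acc n f = some c ↔ Wit n f c ∧ ¬ Wit n f (!c) := by
  classical
  show (if Wit n f true ∧ ¬ Wit n f false then some true else
    if Wit n f false ∧ ¬ Wit n f true then some false else none) = some c ↔ _
  by_cases h1 : Wit n f true <;> by_cases h0 : Wit n f false <;> cases c <;> simp [h1, h0]

theorem cls_accNC (X : Oracle) : Cls accNC X = NPo X ∩ coNPo X := by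
  apply Set.Subset.antisymm
  · rintro L ⟨g, M, h⟩
    obtain ⟨B, ⟨p, hp⟩, hBm, hB⟩ := exists_out_bound g
    have key : ∀ c : Bool, ∃ (p' : Polynomial ℕ) (M' : OracleProc (List Bool × List Bool) Bool),
        ∀ x, Accepts M' p' X x ↔ Wit (g.run X x).length (fun ws => M.run X (x, ws)) c := by
      intro c
      obtain ⟨N, hN⟩ := exists_post
        (Pool.Agent.Helper49.Cons.pre M (fun s : (List Bool × List Bool) × List Bool =>
          (s.1.1, [s.1.2, [c]])) (by fun_prop))
        (fun s : ((List Bool × List Bool) × List Bool) × Bool =>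
          decide (s.1.1.2.length ≤ s.1.2.length) && s.2) (by fun_prop)
      obtain ⟨K, hK⟩ := exists_bind
        (Pool.Agent.Helper49.Cons.pre g (fun s : List Bool × List Bool => s.1) FP.fst) N
      refine ⟨p.comp (3 * Polynomial.X), K, fun x => ?_⟩
      have h3 := (hB X x).trans (hp _)
      rw [sz_bits, sz_bits] at h3
      simp only [Accepts, hK, hN, pre_run, Wit, Bool.and_eq_true, decide_eq_true_eq,
        Polynomial.eval_comp, Polynomial.eval_mul, Polynomial.eval_X, Polynomial.eval_ofNat]
      constructor
      · rintro ⟨w, _, h1, h2⟩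
        exact ⟨w, h1, h2⟩
      · rintro ⟨w, h1, h2⟩
        exact ⟨w, by omega, h1, h2⟩
    obtain ⟨p₁, M₁, h₁⟩ := key true
    obtain ⟨p₀, M₀, h₀⟩ := key false
    refine ⟨⟨p₁, M₁, fun x => ?_⟩, ⟨p₀, M₀, fun x => ?_⟩⟩
    · have hx := (accNC_acc _ _ _).1 (h x)
      rw [h₁]
      cases hL : L x
      · rw [hL] at hx
        exact ⟨fun h' => by simp at h', fun h' => (hx.2 h').elim⟩
      · rw [hL] at hx
        exact ⟨fun _ => hx.1, fun _ => rfl⟩
    · have hx := (accNC_acc _ _ _).1 (h x)
      rw [h₀, compl_true]
      cases hL : L x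
      · rw [hL] at hx
        exact ⟨fun _ => hx.1, fun _ => by simp⟩
      · rw [hL] at hx
        exact ⟨fun h' => (h' rfl).elim, fun h' => (hx.2 h').elim⟩
  · rintro L ⟨⟨p₁, M₁, h₁⟩, ⟨p₀, M₀, h₀⟩⟩
    have hwl : ∀ (p : Polynomial ℕ) (M : OracleProc (List Bool × List Bool) Bool),
        ∃ K : OracleProc (List Bool × List (List Bool)) Bool, ∀ (x w : List Bool) (v : List Bool),
          K.run X (x, [w, v]) = true ↔ w.length ≤ p.eval x.length ∧ M.run X (x, w) = true := by
      intro p M
      have hfp : FP fun s : (List Bool × List (List Bool)) × Bool =>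
          decide ((s.1.2.headD []).length ≤ (un (p.eval s.1.1.length)).length) && s.2 := by
        have e1 : FP fun s : (List Bool × List (List Bool)) × Bool => s.1.2.headD [] :=
          FP.headD (by fun_prop) _
        have e2 : FP fun s : (List Bool × List (List Bool)) × Bool => un (p.eval s.1.1.length) :=
          FP.un_poly (by fun_prop) p
        fun_prop
      obtain ⟨K, hK⟩ := exists_post
        (Pool.Agent.Helper49.Cons.pre M (fun s : List Bool × List (List Bool) =>
          (s.1, s.2.headD [])) (by
            have e1 : FP fun s : List Bool × List (List Bool) => s.2.headD [] :=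
              FP.headD FP.snd _
            fun_prop))
        _ hfp
      refine ⟨K, fun x w v => ?_⟩
      rw [hK]
      simp only [pre_run, List.headD_cons, Bool.and_eq_true, decide_eq_true_eq, un_length]
    obtain ⟨K₁, hK₁⟩ := hwl p₁ M₁
    obtain ⟨K₀, hK₀⟩ := hwl p₀ M₀
    have hbit : FP fun s : List Bool × List (List Bool) => (s.2.tail.headD []).headD false :=
      FP.headD (FP.headD (by fun_prop) _) _
    obtain ⟨N, hN⟩ := exists_post
      (Pool.Agent.Helper49.Cons.pre K₀ (fun s : (List Bool × List (List Bool)) × Bool => s.1)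
        FP.fst)
      (fun s : ((List Bool × List (List Bool)) × Bool) × Bool =>
        if (s.1.1.2.tail.headD []).headD false then s.1.2 else s.2) (by
          have e1 : FP fun s : ((List Bool × List (List Bool)) × Bool) × Bool =>
            (s.1.1.2.tail.headD []).headD false := hbit.comp (by fun_prop)
          fun_prop)
    obtain ⟨K, hK⟩ := exists_bind K₁ N
    have hKc : ∀ (x w : List Bool) (c : Bool), K.run X (x, [w, [c]]) =
        if c then K₁.run X (x, [w, [c]]) else K₀.run X (x, [w, [c]]) := by
      intro x w c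
      rw [hK, hN]
      simp only [pre_run, List.tail_cons, List.headD_cons]
    refine ⟨OracleProc.ofFP (fun x : List Bool => un ((p₁ + p₀).eval x.length))
      (FP.un_poly FP.id _), K, fun x => ?_⟩
    refine (accNC_acc _ _ _).2 ?_
    rw [ofFP_run, un_length, Polynomial.eval_add]
    have w1 : Wit (p₁.eval x.length + p₀.eval x.length) (fun ws => K.run X (x, ws)) true ↔
        L x = true := by
      rw [h₁, Wit, Accepts]
      simp only [hKc, if_true, hK₁]
      exact ⟨fun ⟨w, _, h2, h3⟩ => ⟨w, h2, h3⟩, fun ⟨w, h2, h3⟩ => ⟨w, by omega, h2, h3⟩⟩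
    have w0 : Wit (p₁.eval x.length + p₀.eval x.length) (fun ws => K.run X (x, ws)) false ↔
        ¬ L x = true := by
      rw [← compl_true, h₀, Wit, Accepts]
      simp only [hKc, Bool.false_eq_true, if_false, hK₀]
      exact ⟨fun ⟨w, _, h2, h3⟩ => ⟨w, h2, h3⟩, fun ⟨w, h2, h3⟩ => ⟨w, by omega, h2, h3⟩⟩
    cases hL : L x
    · rw [Bool.not_false, w0, w1, hL]
      simp
    · rw [Bool.not_true, w0, w1, hL]
      simp

/-! ## All types at once -/

/-- For every oracle `A`, all countable families of acceptance types and of locally constant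
operators and every countable set `BB` of values there is a tally oracle `T` such that with
`X = join A T`
* every nonempty class of the family has a complete language relative to `X`;
* an operator with a value in `BB` at `X` has the same value at `join A Q` for some tally set `Q`
  in P;
* inclusions between classes relative to `X` hold relative to `A`;
* inclusions of syntactic classes in classes relative to `A` hold relative to `X`. -/
theorem exists_tally_all_G (A : Oracle) {ι : Type} [Countable ι] [Nonempty ι] (Φ : ι → Acc)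
    {κ : Type} [Countable κ] (Ψ : κ → Oracle → List Bool → Option Bool)
    (hΨ : ∀ e, LocConst (Ψ e)) (BB : Set (List Bool → Option Bool)) (hBB : BB.Countable) :
    ∃ T : Oracle, Tally T ∧
      (∀ i, (Cls (Φ i) (join A T)).Nonempty →
        ∃ L ∈ Cls (Φ i) (join A T), ∀ L' ∈ Cls (Φ i) (join A T), ManyOneReducible L' L) ∧
      (∀ e, Ψ e (join A T) ∈ BB → ∃ Q : Oracle, Tally Q ∧ Q ∈ P ∧
        Ψ e (join A Q) = Ψ e (join A T)) ∧
      (∀ i j, Cls (Φ i) (join A T) ⊆ Cls (Φ j) (join A T) → Cls (Φ i) A ⊆ Cls (Φ j) A) ∧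
      (∀ i j, (Φ i).Syntactic → Cls (Φ i) A ⊆ Cls (Φ j) A →
        Cls (Φ i) (join A T) ⊆ Cls (Φ j) (join A T)) := by
  obtain ⟨s', hs'⟩ := exists_surjective_nat ι
  -- all operators
  let E : Type := Unit ⊕ κ ⊕ (ι × OracleProc (List Bool) (List Bool) ×
    OracleProc (List Bool × List (List Bool)) Bool)
  let Ω : E → Oracle → List Bool → Option Bool
    | .inl _ => fun _ _ => none
    | .inr (.inl e) => Ψ e
    | .inr (.inr c) => verdict (Φ c.1) c.2.1 c.2.2
  have hΩ : ∀ e, LocConst (Ω e) := by
    rintro (_ | e | c)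
    · exact fun X y => Eventually.of_forall fun _ => rfl
    · exact hΨ e
    · exact verdict_locConst _ _ _
  have hEc : Countable E := by
    have : Countable (Unit ⊕ κ ⊕ (ι × OracleProc (List Bool) (List Bool) ×
      OracleProc (List Bool × List (List Bool)) Bool)) := inferInstance
    exact this
  have hEn : Nonempty E := ⟨.inl ()⟩
  obtain ⟨s, hs⟩ := exists_surjective_nat E
  -- all values
  let BB' : Set (List Bool → Option Bool) :=
    {fun _ => none} ∪ BB ∪ ⋃ i, (fun (L : DecisionProblem) x => some (L x)) '' Cls (Φ i) A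
  have hBB' : BB'.Countable := by
    refine ((Set.countable_singleton _).union hBB).union (Set.countable_iUnion fun i => ?_)
    exact (cls_countable _ _).image _
  obtain ⟨T, l, hT, hbit, hcons⟩ := exists_tally (GG_local fun n => Φ (s' n)) A
    (fun n => Ω (s n)) (fun n => hΩ _) BB' hBB' ⟨fun _ => none, Or.inl (Or.inl rfl)⟩
  have hcons' : ∀ e, Ω e (join A T) ∈ BB' → ∃ Q : Oracle, Tally Q ∧ Q ∈ P ∧
      Ω e (join A Q) = Ω e (join A T) := by
    intro e he
    obtain ⟨n, rfl⟩ := hs e
    exact hcons n he
  refine ⟨T, hT, fun i hi => ?_, fun e he => hcons' (.inr (.inl e)) (Or.inl (Or.inr he)),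
    fun i j h => cls_descend _ _ h fun g M L hL hLv => ?_, fun i j hi h => cls_transfer _ _ hi hT h⟩
  · obtain ⟨n, rfl⟩ := hs' i
    exact univ_complete_G (fun n => Φ (s' n)) A T l hbit n hi
  · obtain ⟨Q, -, hQ, hQ'⟩ := hcons' (.inr (.inr (j, g, M))) (by
      refine Or.inr (Set.mem_iUnion.2 ⟨i, L, hL, ?_⟩)
      exact hLv.symm)
    exact ⟨Q, hQ, hQ'⟩

end Pool.Agent.Helper20.ConsG
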